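import Pool.Agent.R867.C.Coef

/-! The conic in the variables `a`, `b`. -/

set_option autoImplicit false

namespace Pool.Agent.R867.C

open MvPolynomial Pool.Agent.TH178.HI Pool.Agent.R867.B

/-- the discriminant of a conic -/
def dd {S : Type} [CommRing S] (c : ℕ → ℕ → ℕ → S) : S :=
  (2 * c 1 1 0 * c 1 0 0 - 4 * c 2 0 0 * c 0 1 0) ^ 2 -
    4 * (c 1 1 0 ^ 2 - 4 * c 2 0 0 * c 0 2 0) * (c 1 0 0 ^ 2 - 4 * c 2 0 0 * c 0 0 0)

theorem dd_map {S S' : Type} [CommRing S] [CommRing S'] (ψ : S →+* S') (c : ℕ → ℕ → ℕ → S) :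
    ψ (dd c) = dd (fun p q r => ψ (c p q r)) := by
  unfold dd
  simp only [map_sub, map_mul, map_pow, map_ofNat]

variable {N : ℕ} {k F : Type} [Field k] [Field F] [Algebra k F]

/-- the base of the conic fibration -/
def Lb (k : Type) [Field k] [Algebra k F] (a b : Fin N) (x : Fin N → F) : IntermediateField k F :=
  IntermediateField.adjoin k (x '' {l | l ≠ a ∧ l ≠ b})

theorem conic_field {a b i : Fin N} (hab : a ≠ b) (hai : a ≠ i) (hbi : b ≠ i)
    {f : MvPolynomial (Fin N) k} (hf : ∀ m ∈ f.support, m a + m b ≤ 2 ∧ m i ≤ 2)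
    {x : Fin N → F} (hx : aeval x f = 0) [CharZero F]
    (hG : ∀ P : MvPolynomial (Fin N) k, eval 0 P ≠ 0 → aeval x P ≠ 0)
    (h20 : coeff (ex a b i 2 0 0) f ≠ 0)
    (hD : dd (fun p q r => coeff (ex a b i p q r) f) ≠ 0) :
    ∃ A B C₀ v : F, A ∈ Lb k a b x ∧ B ∈ Lb k a b x ∧ C₀ ∈ Lb k a b x ∧
      B ^ 2 - 4 * A * C₀ ≠ 0 ∧ v ^ 2 = A * x b ^ 2 + B * x b + C₀ ∧
      (∀ l, x l ∈ IntermediateField.adjoin k ((Lb k a b x : Set F) ∪ {x b, v})) := by
  classical
  obtain ⟨L1, hL1⟩ : ∃ L1, L1 = Lb k a b x := ⟨_, rfl⟩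
  rw [← hL1]
  have hwm : ∀ l, l ≠ a → l ≠ b → x l ∈ L1 := by
    intro l h1 h2
    rw [hL1]
    exact IntermediateField.subset_adjoin k _ ⟨l, ⟨h1, h2⟩, rfl⟩
  obtain ⟨w0, hw0⟩ : ∃ w0 : Fin N → L1, ∀ l, (w0 l : F) = if l = a ∨ l = b then 0 else x l := by
    refine ⟨fun l => if h : l = a ∨ l = b then 0 else ⟨x l, hwm l (fun h1 => h (Or.inl h1))
      (fun h1 => h (Or.inr h1))⟩, fun l => ?_⟩
    by_cases h : l = a ∨ l = b
    · simp [h]
    · simp [h]
  obtain ⟨c, hc⟩ : ∃ c : ℕ → ℕ → ℕ → L1, ∀ p q r, c p q r = coeff (ex a b i p q r)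
    (tr w0 (MvPolynomial.map (algebraMap k L1) f)) := ⟨_, fun _ _ _ => rfl⟩
  -- evaluation
  have hsup : ∀ m ∈ (tr w0 (MvPolynomial.map (algebraMap k L1) f)).support,
      m a + m b ≤ 2 ∧ m i ≤ 2 := by
    have key : ∀ m ∈ (tr w0 (MvPolynomial.map (algebraMap k L1) f)).support,
        ∃ m' ∈ f.support, m ≤ m' := by
      intro m hm
      by_contra hcon
      push Not at hcon
      rw [mem_support_iff] at hm
      apply hm
      have h1 : MvPolynomial.map (algebraMap k L1) f =
          ∑ m' ∈ f.support, C (algebraMap k L1 (coeff m' f)) * monomial m' 1 := by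
        conv_lhs => rw [f.as_sum, map_sum]
        apply Finset.sum_congr rfl
        intro m' _
        rw [map_monomial, C_mul_monomial, mul_one]
      rw [h1, map_sum, coeff_sum]
      apply Finset.sum_eq_zero
      intro m' hm'
      have h2 : tr w0 (C (algebraMap k L1 (coeff m' f)) * monomial m' 1) =
          C (algebraMap k L1 (coeff m' f)) * tr w0 (monomial m' 1) := by
        rw [map_mul]
        congr 1
        exact (tr w0).commutes _
      rw [h2, coeff_C_mul]
      have h3 : m ∉ (tr w0 (monomial m' 1)).support := fun h => hcon m' hm' (sup_tr w0 m' m h)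
      rw [notMem_support_iff.mp h3, mul_zero]
    intro m hm
    obtain ⟨m', h1, h2⟩ := key m hm
    have h3 := hf m' h1
    have h4 := h2 a
    have h5 := h2 b
    have h6 := h2 i
    omega
  obtain ⟨T, hT⟩ : ∃ T : Fin N → F, ∀ l, T l = if l = a ∨ l = b then x l else 0 :=
    ⟨_, fun _ => rfl⟩
  have hTa : T a = x a := by rw [hT]; simp
  have hTb : T b = x b := by rw [hT]; simp
  have hTi : T i = 0 := by rw [hT]; simp [hai.symm, hbi.symm]
  have hev := aeval_three (Om := F) hab hai hbi hsup (T := T) (fun l h1 h2 _ => by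
    rw [hT]; simp [h1, h2])
  have hz : aeval T (tr w0 (MvPolynomial.map (algebraMap k L1) f)) = 0 := by
    rw [aeval_tr, aeval_map_algebraMap]
    have h1 : (fun l => T l + algebraMap L1 F (w0 l)) = x := by
      funext l
      change T l + (w0 l : F) = x l
      rw [hT, hw0]
      split_ifs <;> simp
    rw [h1]
    exact hx
  rw [hz, hTa, hTb, hTi] at hev
  have hcon : (c 0 0 0 : F) + c 1 0 0 * x a + c 0 1 0 * x b + c 2 0 0 * x a ^ 2 +
      c 1 1 0 * x a * x b + c 0 2 0 * x b ^ 2 = 0 := by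
    simp only [hc]
    unfold cq at hev
    have e : ∀ z : L1, algebraMap L1 F z = (z : F) := fun _ => rfl
    simp only [e] at hev
    linear_combination -hev
  -- nonvanishing
  have hne : ∀ G : (ℕ → ℕ → ℕ → MvPolynomial (Fin N) k) → MvPolynomial (Fin N) k,
      ∀ G' : (ℕ → ℕ → ℕ → k) → k, ∀ G'' : (ℕ → ℕ → ℕ → L1) → L1,
      (∀ c, eval 0 (G c) = G' (fun p q r => eval 0 (c p q r))) →
      (∀ c, aeval w0 (G c) = G'' (fun p q r => aeval w0 (c p q r))) →
      G' (fun p q r => coeff (ex a b i p q r) f) ≠ 0 → G'' c ≠ 0 := by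
    intro G G' G'' h1 h2 h3 h4
    obtain ⟨cX, hcX⟩ : ∃ cX : ℕ → ℕ → ℕ → MvPolynomial (Fin N) k, ∀ p q r, cX p q r =
      coeff (ex a b i p q r) (tr (X : Fin N → MvPolynomial (Fin N) k) (MvPolynomial.map C f)) :=
      ⟨_, fun _ _ _ => rfl⟩
    obtain ⟨sb, hsb⟩ : ∃ sb : MvPolynomial (Fin N) k →ₐ[k] MvPolynomial (Fin N) k,
      sb = aeval (fun l => if l = a ∨ l = b then 0 else X l) := ⟨_, rfl⟩
    apply hG (sb (G cX))
    · have h5 : ∀ P : MvPolynomial (Fin N) k, eval 0 (sb P) = eval 0 P := by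
        intro P
        have h6 : ((aeval (0 : Fin N → k)).comp sb : MvPolynomial (Fin N) k →ₐ[k] k) =
            aeval (0 : Fin N → k) := by
          apply MvPolynomial.algHom_ext
          intro l
          rw [AlgHom.comp_apply, hsb, aeval_X, aeval_X]
          split_ifs <;> simp
        have h7 := congrArg (fun h : MvPolynomial (Fin N) k →ₐ[k] k => h P) h6
        simpa [coe_aeval_eq_eval] using h7
      rw [h5, h1]
      have h6 : (fun p q r => eval 0 (cX p q r)) = fun p q r => coeff (ex a b i p q r) f := by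
        funext p q r
        have h7 := coeff_trX (S := k) f (0 : Fin N → k) (ex a b i p q r)
        have h7' : ∀ P : MvPolynomial (Fin N) k, eval (0 : Fin N → k) P =
            aeval (0 : Fin N → k) P := fun P => rfl
        rw [hcX, h7', h7]
        have h8 : tr (0 : Fin N → k) (MvPolynomial.map (algebraMap k k) f) = f := by
          unfold tr
          have h9 : (fun l => X l + C ((0 : Fin N → k) l)) =
              (X : Fin N → MvPolynomial (Fin N) k) := by
            funext l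
            rw [Pi.zero_apply, map_zero, add_zero]
          rw [h9, aeval_X_left_apply]
          exact MvPolynomial.map_id f
        rw [h8]
      rw [h6]
      exact h3
    · have h5 : ∀ P : MvPolynomial (Fin N) k, aeval x (sb P) = ((aeval w0 P : L1) : F) := by
        intro P
        have h6 : (aeval x).comp sb = (IsScalarTower.toAlgHom k L1 F).comp (aeval w0) := by
          apply MvPolynomial.algHom_ext
          intro l
          rw [AlgHom.comp_apply, hsb, aeval_X, AlgHom.comp_apply, aeval_X]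
          change _ = (w0 l : F)
          rw [hw0]
          split_ifs <;> simp
        exact congrArg (fun h : MvPolynomial (Fin N) k →ₐ[k] F => h P) h6
      rw [h5, h2]
      have h6 : (fun p q r => aeval w0 (cX p q r)) = c := by
        funext p q r
        rw [hcX, coeff_trX, hc]
      rw [h6, h4]
      rfl
  have h20' : (c 2 0 0 : F) ≠ 0 := by
    have := hne (fun c => c 2 0 0) (fun c => c 2 0 0) (fun c => c 2 0 0) (fun _ => rfl)
      (fun _ => rfl) h20
    exact_mod_cast this
  have hD' : dd (fun p q r => (c p q r : F)) ≠ 0 := by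
    have := hne (fun c => dd c) (fun c => dd c) (fun c => dd c) (fun c => dd_map _ c)
      (fun c => dd_map (aeval w0 : MvPolynomial (Fin N) k →ₐ[k] L1).toRingHom c) hD
    intro h
    apply this
    have h1 := dd_map (algebraMap L1 F) c
    have h2 : (algebraMap L1 F) (dd c) = 0 := by
      rw [h1]
      exact h
    exact (map_eq_zero _).mp h2
  have m2' : (2 : F) ∈ L1 := two_mem' L1
  have m4' : (4 : F) ∈ L1 := four_mem L1
  refine ⟨(c 1 1 0 : F) ^ 2 - 4 * c 2 0 0 * c 0 2 0, 2 * (c 1 1 0 : F) * c 1 0 0 -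
    4 * c 2 0 0 * c 0 1 0, (c 1 0 0 : F) ^ 2 - 4 * c 2 0 0 * c 0 0 0,
    2 * (c 2 0 0 : F) * x a + c 1 1 0 * x b + c 1 0 0, ?_, ?_, ?_, hD', ?_, ?_⟩
  · exact sub_mem (pow_mem (c 1 1 0).2 2) (mul_mem (mul_mem m4' (c 2 0 0).2) (c 0 2 0).2)
  · exact sub_mem (mul_mem (mul_mem m2' (c 1 1 0).2) (c 1 0 0).2)
      (mul_mem (mul_mem m4' (c 2 0 0).2) (c 0 1 0).2)
  · exact sub_mem (pow_mem (c 1 0 0).2 2) (mul_mem (mul_mem m4' (c 2 0 0).2) (c 0 0 0).2)
  · linear_combination (4 * (c 2 0 0 : F)) * hcon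
  · intro l
    have hxb : x b ∈ IntermediateField.adjoin k ((L1 : Set F) ∪ {x b,
        2 * (c 2 0 0 : F) * x a + c 1 1 0 * x b + c 1 0 0}) :=
      IntermediateField.subset_adjoin k _ (Or.inr (Or.inl rfl))
    have hv : 2 * (c 2 0 0 : F) * x a + c 1 1 0 * x b + c 1 0 0 ∈
        IntermediateField.adjoin k ((L1 : Set F) ∪ {x b,
        2 * (c 2 0 0 : F) * x a + c 1 1 0 * x b + c 1 0 0}) :=
      IntermediateField.subset_adjoin k _ (Or.inr (Or.inr rfl))
    have hm : ∀ z : L1, (z : F) ∈ IntermediateField.adjoin k ((L1 : Set F) ∪ {x b,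
        2 * (c 2 0 0 : F) * x a + c 1 1 0 * x b + c 1 0 0}) := fun z =>
      IntermediateField.subset_adjoin k _ (Or.inl z.2)
    by_cases hla : l = a
    · have h2 : (2 : F) ≠ 0 := two_ne_zero
      have e : x l = (2 * (c 2 0 0 : F) * x a + c 1 1 0 * x b + c 1 0 0 - c 1 1 0 * x b -
          c 1 0 0) / (2 * c 2 0 0) := by
        rw [hla]
        field_simp
        ring
      rw [e]
      exact div_mem (sub_mem (sub_mem hv (mul_mem (hm _) hxb)) (hm _))
        (mul_mem (IntermediateField.subset_adjoin k _ (Or.inl m2')) (hm _))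
    · by_cases hlb : l = b
      · rw [hlb]
        exact hxb
      · exact IntermediateField.subset_adjoin k _ (Or.inl (hwm l hla hlb))

end Pool.Agent.R867.C
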