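import Pool.Agent.R867.C.Geo
import Pool.Agent.R867.B.Tr

/-! Coefficients of translates. -/

set_option autoImplicit false

namespace Pool.Agent.R867.C

open MvPolynomial Pool.Agent.R867.B

variable {N : ℕ}

/-- the exponent -/
noncomputable def ex (a b i : Fin N) (p q r : ℕ) : Fin N →₀ ℕ :=
  Finsupp.single a p + Finsupp.single b q + Finsupp.single i r

theorem ex_a {a b i : Fin N} (hab : a ≠ b) (hai : a ≠ i) (p q r : ℕ) : ex a b i p q r a = p := by
  simp [ex, Finsupp.single_apply, hab.symm, hai.symm]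

theorem ex_b {a b i : Fin N} (hab : a ≠ b) (hbi : b ≠ i) (p q r : ℕ) : ex a b i p q r b = q := by
  simp [ex, Finsupp.single_apply, hab, hbi.symm]

theorem ex_i {a b i : Fin N} (hai : a ≠ i) (hbi : b ≠ i) (p q r : ℕ) : ex a b i p q r i = r := by
  simp [ex, Finsupp.single_apply, hai, hbi]

theorem ex_o {a b i l : Fin N} (hla : l ≠ a) (hlb : l ≠ b) (hli : l ≠ i) (p q r : ℕ) :
    ex a b i p q r l = 0 := by
  simp [ex, Finsupp.single_apply, hla.symm, hlb.symm, hli.symm]

theorem prod_ex {S : Type} [CommRing S] (T : Fin N → S) (a b i : Fin N) (p q r : ℕ) :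
    ∏ l, T l ^ (ex a b i p q r l) = T a ^ p * T b ^ q * T i ^ r := by
  have h1 : ∀ (j : Fin N) (s : ℕ), ∏ l, T l ^ (Finsupp.single j s l) = T j ^ s := by
    intro j s
    rw [Finset.prod_eq_single j]
    · rw [Finsupp.single_eq_same]
    · intro l _ hl
      rw [Finsupp.single_apply, if_neg hl.symm, pow_zero]
    · intro h
      exact absurd (Finset.mem_univ j) h
  unfold ex
  simp only [Finsupp.add_apply, pow_add, Finset.prod_mul_distrib, h1]

/-- the indices -/
def idx : Finset (ℕ × ℕ × ℕ) :=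
  (({0, 1, 2} : Finset ℕ) ×ˢ (({0, 1, 2} : Finset ℕ) ×ˢ ({0, 1, 2} : Finset ℕ))).filter
    (fun x => x.1 + x.2.1 ≤ 2)

theorem mem_idx {p q r : ℕ} (h1 : p + q ≤ 2) (h2 : r ≤ 2) : (p, q, r) ∈ idx := by
  unfold idx
  simp only [Finset.mem_filter, Finset.mem_product, Finset.mem_insert, Finset.mem_singleton]
  omega

theorem sum_idx {S : Type} [CommRing S] (F : ℕ → ℕ → ℕ → S) :
    ∑ x ∈ idx, F x.1 x.2.1 x.2.2 =
      (F 0 0 0 + F 1 0 0 + F 0 1 0 + F 2 0 0 + F 1 1 0 + F 0 2 0) +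
      (F 0 0 1 + F 1 0 1 + F 0 1 1 + F 2 0 1 + F 1 1 1 + F 0 2 1) +
      (F 0 0 2 + F 1 0 2 + F 0 1 2 + F 2 0 2 + F 1 1 2 + F 0 2 2) := by
  have h : idx = {(0,0,0),(1,0,0),(0,1,0),(2,0,0),(1,1,0),(0,2,0),(0,0,1),(1,0,1),(0,1,1),
    (2,0,1),(1,1,1),(0,2,1),(0,0,2),(1,0,2),(0,1,2),(2,0,2),(1,1,2),(0,2,2)} := by decide
  rw [h]
  repeat rw [Finset.sum_insert (by decide)]
  rw [Finset.sum_singleton]
  ring

theorem aeval_three {S Om : Type} [CommRing S] [CommRing Om] [Algebra S Om] {a b i : Fin N}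
    (hab : a ≠ b) (hai : a ≠ i) (hbi : b ≠ i) {f : MvPolynomial (Fin N) S}
    (hf : ∀ m ∈ f.support, m a + m b ≤ 2 ∧ m i ≤ 2) {T : Fin N → Om}
    (hT : ∀ l, l ≠ a → l ≠ b → l ≠ i → T l = 0) :
    aeval T f = cq (fun p q r => algebraMap S Om (coeff (ex a b i p q r) f)) 0 (T a) (T b) +
      cq (fun p q r => algebraMap S Om (coeff (ex a b i p q r) f)) 1 (T a) (T b) * T i +
      cq (fun p q r => algebraMap S Om (coeff (ex a b i p q r) f)) 2 (T a) (T b) * T i ^ 2 := by
  classical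
  obtain ⟨F, hF⟩ : ∃ F : (Fin N →₀ ℕ) → Om, ∀ m, F m = algebraMap S Om (coeff m f) *
    ∏ l, T l ^ m l := ⟨_, fun _ => rfl⟩
  have h1 : aeval T f = ∑ m ∈ f.support, F m := by
    rw [aeval_def, eval₂_eq']
    exact Finset.sum_congr rfl (fun m _ => (hF m).symm)
  obtain ⟨φ, hφ⟩ : ∃ φ : ℕ × ℕ × ℕ → (Fin N →₀ ℕ), ∀ x, φ x = ex a b i x.1 x.2.1 x.2.2 :=
    ⟨_, fun _ => rfl⟩
  have hinj : Function.Injective φ := by
    intro x y hxy
    rw [hφ, hφ] at hxy
    have e1 := DFunLike.congr_fun hxy a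
    have e2 := DFunLike.congr_fun hxy b
    have e3 := DFunLike.congr_fun hxy i
    rw [ex_a hab hai, ex_a hab hai] at e1
    rw [ex_b hab hbi, ex_b hab hbi] at e2
    rw [ex_i hai hbi, ex_i hai hbi] at e3
    exact Prod.ext e1 (Prod.ext e2 e3)
  have h2 : ∑ m ∈ f.support, F m = ∑ m ∈ f.support ∪ idx.image φ, F m := by
    apply Finset.sum_subset Finset.subset_union_left
    intro m _ hm
    rw [hF, notMem_support_iff.mp hm, map_zero, zero_mul]
  have h3 : ∑ m ∈ idx.image φ, F m = ∑ m ∈ f.support ∪ idx.image φ, F m := by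
    apply Finset.sum_subset Finset.subset_union_right
    intro m hm hm'
    have hms : m ∈ f.support := by
      rcases Finset.mem_union.mp hm with h | h
      · exact h
      · exact absurd h hm'
    have h4 : ∃ l, l ≠ a ∧ l ≠ b ∧ l ≠ i ∧ m l ≠ 0 := by
      by_contra hcon
      push Not at hcon
      apply hm'
      rw [Finset.mem_image]
      refine ⟨(m a, m b, m i), mem_idx (hf m hms).1 (hf m hms).2, ?_⟩
      rw [hφ]
      ext l
      by_cases hla : l = a
      · rw [hla, ex_a hab hai]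
      · by_cases hlb : l = b
        · rw [hlb, ex_b hab hbi]
        · by_cases hli : l = i
          · rw [hli, ex_i hai hbi]
          · rw [ex_o hla hlb hli, hcon l hla hlb hli]
    obtain ⟨l, h5, h6, h7, h8⟩ := h4
    rw [hF, Finset.prod_eq_zero (Finset.mem_univ l) (by rw [hT l h5 h6 h7, zero_pow h8]), mul_zero]
  rw [h1, h2, ← h3, Finset.sum_image (fun x _ y _ h => hinj h)]
  have h5 : ∀ x ∈ idx, F (φ x) = algebraMap S Om (coeff (ex a b i x.1 x.2.1 x.2.2) f) *
      (T a ^ x.1 * T b ^ x.2.1 * T i ^ x.2.2) := by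
    intro x _
    rw [hF, hφ, prod_ex]
  rw [Finset.sum_congr rfl h5, sum_idx (fun p q r => algebraMap S Om (coeff (ex a b i p q r) f) *
    (T a ^ p * T b ^ q * T i ^ r))]
  unfold cq
  ring

theorem map_tr {S S' : Type} [CommRing S] [CommRing S'] (ρ : S →+* S') (x : Fin N → S)
    (g : MvPolynomial (Fin N) S) :
    MvPolynomial.map ρ (tr x g) = tr (fun l => ρ (x l)) (MvPolynomial.map ρ g) := by
  have h : (MvPolynomial.map ρ).comp (tr x : MvPolynomial (Fin N) S →ₐ[S] _).toRingHom =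
      (tr (fun l => ρ (x l)) : MvPolynomial (Fin N) S' →ₐ[S'] _).toRingHom.comp
        (MvPolynomial.map ρ) := by
    apply MvPolynomial.ringHom_ext
    · intro r
      have e1 : tr x (C r) = C r := (tr x).commutes r
      have e2 : tr (fun l => ρ (x l)) (C (ρ r)) = C (ρ r) := (tr (fun l => ρ (x l))).commutes _
      simp only [RingHom.comp_apply, map_C]
      change MvPolynomial.map ρ (tr x (C r)) = tr (fun l => ρ (x l)) (C (ρ r))
      rw [e1, e2, map_C]
    · intro l
      simp only [RingHom.comp_apply, map_X]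
      change MvPolynomial.map ρ (tr x (X l)) = tr (fun l => ρ (x l)) (X l)
      rw [tr_X, tr_X, map_add, map_X, map_C]
  exact congrArg (fun h : MvPolynomial (Fin N) S →+* MvPolynomial (Fin N) S' => h g) h

/-- universal translate of `f` -/
theorem coeff_trX {L S : Type} [CommRing L] [CommRing S] [Algebra L S] (f : MvPolynomial (Fin N) L)
    (x : Fin N → S) (m : Fin N →₀ ℕ) :
    aeval x (coeff m (tr (X : Fin N → MvPolynomial (Fin N) L) (MvPolynomial.map C f))) =
      coeff m (tr x (MvPolynomial.map (algebraMap L S) f)) := by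
  have h1 := map_tr (aeval x : MvPolynomial (Fin N) L →ₐ[L] S).toRingHom
    (X : Fin N → MvPolynomial (Fin N) L) (MvPolynomial.map C f)
  have h2 := congrArg (coeff m) h1
  rw [coeff_map] at h2
  change aeval x (coeff m _) = _ at h2
  rw [h2, MvPolynomial.map_map]
  have e1 : (fun l => (aeval x : MvPolynomial (Fin N) L →ₐ[L] S).toRingHom (X l)) = x := by
    funext l
    exact aeval_X x l
  have e2 : (aeval x : MvPolynomial (Fin N) L →ₐ[L] S).toRingHom.comp C = algebraMap L S := by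
    ext r
    exact aeval_C x r
  rw [e1, e2]

end Pool.Agent.R867.C
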