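import Pool.Agent.R867.C.Unv
import Pool.Agent.Y742.HC.All
import Pool.Agent.Y742.HC.Dense

/-! Conic fibrations without common covers. -/

set_option autoImplicit false

namespace Pool.Agent.R867.C

open MvPolynomial Pool.Agent.TH178.HI Pool.Agent.R867.B Pool.Agent.R867.H Pool.Agent.R867.Mov
  Pool.Agent.Y716.M

/-- conic fibrations without common functions and without common covers -/
def HCov (L K : Type) [Field L] [Field K] [Algebra L K] : Prop :=
  ∃ (m : ℕ) (F : Fin m → IntermediateField L K), (∀ i, IsConicOver (F i)) ∧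
    (∀ z : K, (∀ i, IsAlgebraic (F i) z) → z ∈ Set.range (algebraMap L K)) ∧
    ∀ (M : Type) [Field M] [Algebra L M] [Algebra K M] [IsScalarTower L K M]
      [FiniteDimensional K M], (∀ a : M, IsAlgebraic L a → a ∈ Set.range (algebraMap L M)) →
      (∀ i, IntermediateField.adjoin K {z : M | IsAlgebraic (F i) z} = ⊤) →
      Function.Surjective (algebraMap K M)

theorem hcov {N : ℕ} {L K : Type} [Field L] [CharZero L] [Field K] [Algebra L K]
    {f : MvPolynomial (Fin N) L} {a b : Fin N} {ξ : Fin N → K}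
    (hc : ∀ i, i ≠ a → i ≠ b → Cnd f a b i) (ho : ∃ i, i ≠ a ∧ i ≠ b) (hξ : GP f ξ) :
    HCov L K := by
  classical
  obtain ⟨τ, hτ⟩ : ∃ τ : Fin N → K ≃ₐ[L] K, Inv f a b ξ τ := by
    refine ⟨fun i => if h : i ≠ a ∧ i ≠ b then (exists_tau (hc i h.1 h.2) hξ).choose else
      AlgEquiv.refl, ⟨fun i hia hib => ?_, fun i hia hib => ?_⟩⟩
    · rw [dif_pos ⟨hia, hib⟩]
      exact (exists_tau (hc i hia hib) hξ).choose_spec.1
    · rw [dif_pos ⟨hia, hib⟩]
      exact (exists_tau (hc i hia hib) hξ).choose_spec.2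
  obtain ⟨i₀, hia, hib⟩ := ho
  obtain ⟨m, ⟨e⟩⟩ := Finite.exists_equiv_fin (Option {l : Fin N // l ≠ a ∧ l ≠ b})
  have hcon : ∀ o, IsConicOver (Lf a b ξ τ o) := by
    intro o
    have h1 := conicL (hc i₀ hia hib) hξ
    cases o with
    | none => exact h1
    | some i => exact conic_map h1 (τ i)
  refine ⟨m, fun j => Lf a b ξ τ (e.symm j), fun j => hcon _, fun z hz => ?_, ?_⟩
  · refine hinv hc ⟨i₀, hia, hib⟩ hξ hτ z fun o => ?_
    have h := hz (e o)
    beta_reduce at h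
    rwa [e.symm_apply_apply] at h
  · intro M _ _ _ _ _ hk hv
    refine no_cover hc ⟨i₀, hia, hib⟩ hξ hτ M hk fun o => ?_
    have h := hv (e o)
    beta_reduce at h
    rwa [e.symm_apply_apply] at h

/-- the property at a point -/
def PrC {N : ℕ} (L : Type) [Field L] (f : MvPolynomial (Fin N) L) : Prop :=
  (∃ (n : ℕ) (P : Fin N → Rt n L) (l : Fin N), aeval P f = 0 ∧
    AlgebraicIndependent L (fun i : {i : Fin N // i ≠ l} => P i)) ∧
  ∀ (K : Type) [Field K] [Algebra L K] (ξ : Fin N → K), GP f ξ → HCov L K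

section

variable {r : ℕ} {n : Fin r → ℕ} {N : ℕ} (ε : (Σ i : Fin r, Fin (n i)) ≃ Fin N)

theorem unifC {i₀ : Fin r} (h0 : n i₀ = 2) (hr : 2 ≤ r) (hn : ∀ i, 1 ≤ n i) :
    ∃ g : MvPolynomial (Fin N) (MvPolynomial (expo (bet ε) (fun _ => 2)) ℤ),
      th ℤ (expo (bet ε) (fun _ => 2)) g ≠ 0 ∧
      ∀ {L : Type} [Field L] [CharZero L] (f : MvPolynomial (Fin N) L) (x : Fin N → L),
        f.support ⊆ expo (bet ε) (fun _ => 2) → aeval x f = 0 →
        g.eval₂ (eval₂Hom (Int.castRingHom L)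
          (fun m : expo (bet ε) (fun _ => 2) => coeff (m : Fin N →₀ ℕ) f)) x ≠ 0 → PrC L f := by
  classical
  have hN : 2 ≤ N := by
    have h1 : Fintype.card (Σ i : Fin r, Fin (n i)) = N := by
      rw [Fintype.card_congr ε, Fintype.card_fin]
    rw [Fintype.card_sigma] at h1
    simp only [Fintype.card_fin] at h1
    have h2 : ∑ i : Fin r, 1 ≤ ∑ i, n i := Finset.sum_le_sum fun i _ => hn i
    simp at h2
    omega
  have hβ : Function.Surjective (bet ε) := fun i => ⟨ε ⟨i, ⟨0, hn i⟩⟩, bet_apply ε _⟩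
  have hcard : ∀ j, (Finset.univ.filter fun l => bet ε l = j).card = n j := by
    intro j
    exact card_bet ε j
  obtain ⟨g₁, hg₁, h₁⟩ := unif (β := bet ε) (d := fun _ => 2) hN hβ (fun _ => by norm_num)
    (fun _ => by norm_num) (fun j => by rw [hcard]; have := hn j; omega)
    ⟨i₀, by rw [hcard, h0]⟩
  obtain ⟨a, ha⟩ : ∃ a, a = ε ⟨i₀, ⟨0, by omega⟩⟩ := ⟨_, rfl⟩
  obtain ⟨b, hb⟩ : ∃ a, a = ε ⟨i₀, ⟨1, by omega⟩⟩ := ⟨_, rfl⟩
  have hab : a ≠ b := by
    rw [ha, hb]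
    intro h
    have := ε.injective h
    simp at this
  have hba : bet ε a = i₀ := by rw [ha, bet_apply]
  have hbb : bet ε b = i₀ := by rw [hb, bet_apply]
  have ho : ∀ l, l ≠ a → l ≠ b → bet ε a ≠ bet ε l := by
    intro l h1 h2 h3
    rw [hba] at h3
    obtain ⟨⟨i, j⟩, rfl⟩ := ε.surjective l
    rw [bet_apply] at h3
    subst h3
    have h4 : (j : ℕ) ≠ 0 := by
      intro h5
      apply h1
      rw [ha]
      congr 2
      exact Fin.ext h5
    have h6 : (j : ℕ) ≠ 1 := by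
      intro h5
      apply h2
      rw [hb]
      congr 2
      exact Fin.ext h5
    have := j.2
    omega
  obtain ⟨i', hi'⟩ : ∃ i' : Fin r, i' ≠ i₀ := by
    haveI : Nontrivial (Fin r) := Fin.nontrivial_iff_two_le.mpr hr
    exact exists_ne i₀
  have hex : ∃ l, l ≠ a ∧ l ≠ b := by
    refine ⟨ε ⟨i', ⟨0, hn i'⟩⟩, ?_, ?_⟩
    · intro h
      apply hi'
      rw [← hba, ← h, bet_apply]
    · intro h
      apply hi'
      rw [← hbb, ← h, bet_apply]
  obtain ⟨Φ, hΦ, h₂⟩ := exists_cnd hab (hba.trans hbb.symm) ho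
  obtain ⟨g₂, hg₂, hgs⟩ := unif_g (E := expo (bet ε) (fun _ => 2)) hΦ
  refine ⟨g₁ * g₂, by rw [map_mul]; exact mul_ne_zero hg₁ hg₂, fun {L} _ _ f x hf hfx hne => ?_⟩
  rw [eval₂_mul] at hne
  refine ⟨h₁ f x hf hfx (left_ne_zero_of_mul hne), fun K _ _ ξ hξ => ?_⟩
  refine hcov (h₂ (tr x f) ?_ ?_ (hgs f x hf (right_ne_zero_of_mul hne))) hex (gp_tr hξ x)
  · exact sup_tr' x hf
  · rw [coeff_tr_zero]
    exact hfx

end

end Pool.Agent.R867.C
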