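import Pool.Agent.R867.C.ParX
import Pool.Agent.R867.B.Core4

/-! No covers which are constant for all the conic fibrations. -/

set_option autoImplicit false

namespace Pool.Agent.R867.C

open MvPolynomial Pool.Agent.TH178.HI Pool.Agent.R867.B Pool.Agent.R867.H Pool.Agent.R867.Mov

theorem alg_lift {L A B T : Type} [Field L] [Field A] [Algebra L A] [Field B] [Field T]
    [Algebra T B] (g : A →+* B) (hT : ∀ c : L, g (algebraMap L A c) ∈ Set.range (algebraMap T B))
    {z : A} (h : IsAlgebraic L z) : IsAlgebraic T (g z) := by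
  obtain ⟨p, hp, hz⟩ := h
  obtain ⟨q, hq⟩ : ∃ q : Polynomial B, q = (p.map (algebraMap L A)).map g := ⟨_, rfl⟩
  have h1 : q ∈ Polynomial.lifts (algebraMap T B) := by
    rw [Polynomial.lifts_iff_coeff_lifts]
    intro n
    rw [hq, Polynomial.coeff_map, Polynomial.coeff_map]
    exact hT _
  obtain ⟨p', hp'⟩ := (Polynomial.mem_lifts _).mp h1
  refine ⟨p', ?_, ?_⟩
  · rintro rfl
    rw [Polynomial.map_zero, hq] at hp'
    have h2 := hp'.symm
    rw [Polynomial.map_eq_zero, Polynomial.map_eq_zero] at h2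
    exact hp h2
  · rw [← Polynomial.eval_map_algebraMap, hp', hq, Polynomial.eval_map,
      Polynomial.eval₂_at_apply, Polynomial.eval_map_algebraMap, hz, map_zero]

variable {N : ℕ} {k : Type} [Field k] {K : Type} [Field K] [Algebra k K]

theorem trans_b {F : Type} [Field F] [Algebra k F] {a b : Fin N} (hab : a ≠ b) {x : Fin N → F}
    (hx : AlgebraicIndependent k (fun l : {l : Fin N // l ≠ a} => x l)) :
    Transcendental (Lb k a b x) (x b) := by
  have h := transcendental_of_le hx (I := {l | (l : Fin N) ≠ b}) (i := ⟨b, Ne.symm hab⟩) (by simp)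
    (L := Lb k a b x) ?_
  · exact h
  · unfold Lb
    rw [IntermediateField.adjoin_le_iff]
    rintro _ ⟨l, ⟨h1, h2⟩, rfl⟩
    exact subset_AC _ ⟨⟨l, h1⟩, h2, rfl⟩

theorem conicL [CharZero k] {f : MvPolynomial (Fin N) k} {a b i : Fin N} (hc : Cnd f a b i)
    {ξ : Fin N → K} (hξ : GP f ξ) : IsConicOver (Lb k a b ξ) := by
  haveI : CharZero K := charZero_of_injective_algebraMap (algebraMap k K).injective
  have hf0 : f ≠ 0 := by
    rintro rfl
    exact hc.c1 (coeff_zero _)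
  have hda : degreeOf a f ≠ 0 := deg_ne hc.c20 (by rw [ex_a hc.hab hc.hai]; norm_num)
  have hz : aeval ξ f = 0 := (hξ.zero_iff f).mpr dvd_rfl
  obtain ⟨A, B, C₀, v, hA, hB, hC, hD, hv, hl⟩ := conic_field hc.hab hc.hai hc.hbi hc.sup hz
    (fun P h1 h2 => h1 (eval_dvd hc.f0 ((hξ.zero_iff P).mp h2))) hc.c20 hc.cd
  refine ⟨A, B, C₀, ξ b, v, hA, hB, hC, hD,
    trans_b hc.hab (indep_of hf0 hda (fun P => (hξ.zero_iff P).mp)), hv, ?_⟩
  rw [eq_top_iff, ← hξ.gen, IntermediateField.adjoin_le_iff]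
  rintro _ ⟨l, rfl⟩
  exact hl l

theorem conic_map {L : IntermediateField k K} (h : IsConicOver L) (τ : K ≃ₐ[k] K) :
    IsConicOver (L.map τ.toAlgHom) := by
  obtain ⟨A, B, C₀, s, v, hA, hB, hC, hD, hs, hv, htop⟩ := h
  refine ⟨τ A, τ B, τ C₀, τ s, τ v, ⟨A, hA, rfl⟩, ⟨B, hB, rfl⟩, ⟨C₀, hC, rfl⟩, ?_, ?_, ?_, ?_⟩
  · intro h
    apply hD
    apply τ.injective
    rw [map_zero, ← h, map_sub, map_pow, map_mul, map_mul, map_ofNat]
  · intro h
    apply hs
    have h1 := alg_lift (T := L) (τ.symm : K →+* K) (fun c => ?_) h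
    · simpa using h1
    · obtain ⟨y, hy, hyc⟩ := c.2
      refine ⟨⟨y, hy⟩, ?_⟩
      change y = τ.symm (c : K)
      rw [← hyc]
      change y = τ.symm (τ y)
      rw [AlgEquiv.symm_apply_apply]
  · rw [← map_pow, hv]
    simp
  · have h1 : (⊤ : IntermediateField k K).map τ.toAlgHom = ⊤ := by
      rw [eq_top_iff]
      intro z _
      exact ⟨τ.symm z, trivial, by simp⟩
    have h2 : IntermediateField.adjoin k (((L.map τ.toAlgHom : IntermediateField k K) : Set K) ∪
        {τ s, τ v}) = (IntermediateField.adjoin k ((L : Set K) ∪ {s, v})).map τ.toAlgHom := by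
      rw [IntermediateField.adjoin_map, Set.image_union, Set.image_pair]
      rfl
    rw [h2, htop, h1]

/-- the data in a big field -/
structure Big (f : MvPolynomial (Fin N) k) (a b : Fin N) (ξ : Fin N → K) (E : Type) [Field E]
    [Algebra k E] (κ : K →ₐ[k] E) (u : E) : Prop where
  hc : ∀ i, i ≠ a → i ≠ b → Cnd f a b i
  ho : ∃ i, i ≠ a ∧ i ≠ b
  gp : GP f ξ
  hu : u ∉ cl k (Set.range κ)

section Big

variable {E : Type} [Field E] [Algebra k E] {κ : K →ₐ[k] E} {u : E}
  {f : MvPolynomial (Fin N) k} {a b : Fin N} {ξ : Fin N → K}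

theorem Big.ind (h : Big f a b ξ E κ u) :
    AlgebraicIndependent k (fun l : {l : Fin N // l ≠ a ∧ l ≠ b} => κ (ξ l)) := by
  obtain ⟨i, hia, hib⟩ := h.ho
  have hc := h.hc i hia hib
  have hf0 : f ≠ 0 := by
    rintro rfl
    exact hc.c1 (coeff_zero _)
  have hda : degreeOf a f ≠ 0 := deg_ne hc.c20 (by rw [ex_a hc.hab hc.hai]; norm_num)
  have h1 := indep_of hf0 hda (fun P => (h.gp.zero_iff P).mp)
  have h2 := h1.map' (f := κ) κ.toRingHom.injective
  exact h2.comp (fun l : {l : Fin N // l ≠ a ∧ l ≠ b} => (⟨l, l.2.1⟩ : {l : Fin N // l ≠ a}))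
    (fun x y hxy => Subtype.ext (congrArg (fun z : {l : Fin N // l ≠ a} => (z : Fin N)) hxy))

theorem range_w : Set.range (fun l : {l : Fin N // l ≠ a ∧ l ≠ b} => κ (ξ l)) =
    (fun l => κ (ξ l)) '' {l | l ≠ a ∧ l ≠ b} := by
  ext z
  constructor
  · rintro ⟨l, rfl⟩
    exact ⟨l, l.2, rfl⟩
  · rintro ⟨l, hl, rfl⟩
    exact ⟨⟨l, hl⟩, rfl⟩

theorem Big.rel [CharZero k] [CharZero E] (h : Big f a b ξ E κ u) :
    RelCl (IntermediateField.adjoin k
      (Set.range (fun l : {l : Fin N // l ≠ a ∧ l ≠ b} => κ (ξ l)))) κ.fieldRange := by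
  obtain ⟨i, hia, hib⟩ := h.ho
  have hc := h.hc i hia hib
  have hf0 : f ≠ 0 := by
    rintro rfl
    exact hc.c1 (coeff_zero _)
  have hda : degreeOf a f ≠ 0 := deg_ne hc.c20 (by rw [ex_a hc.hab hc.hai]; norm_num)
  have hcomp : ∀ P : MvPolynomial (Fin N) k, aeval (fun l => κ (ξ l)) P = κ (aeval ξ P) := by
    intro P
    have h3 : aeval (fun l => κ (ξ l)) = κ.comp (aeval ξ) := by
      apply MvPolynomial.algHom_ext
      intro l
      simp
    exact congrArg (fun h : MvPolynomial (Fin N) k →ₐ[k] E => h P) h3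
  have hz : aeval (fun l => κ (ξ l)) f = 0 := by
    rw [hcomp, (h.gp.zero_iff f).mpr dvd_rfl, map_zero]
  obtain ⟨A, B, C₀, v, hA, hB, hC, hD, hv, hl⟩ := conic_field (x := fun l => κ (ξ l))
    hc.hab hc.hai hc.hbi hc.sup hz (fun P h1 h2 => h1 (eval_dvd hc.f0 ((h.gp.zero_iff P).mp (by
      rw [hcomp] at h2
      exact (map_eq_zero κ).mp h2)))) hc.c20 hc.cd
  have hL : Lb k a b (fun l => κ (ξ l)) = IntermediateField.adjoin k
      (Set.range (fun l : {l : Fin N // l ≠ a ∧ l ≠ b} => κ (ξ l))) := by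
    rw [range_w]
    rfl
  rw [← hL]
  have hind : AlgebraicIndependent k (fun l : {l : Fin N // l ≠ a} => κ (ξ l)) :=
    (indep_of hf0 hda (fun P => (h.gp.zero_iff P).mp)).map' (f := κ) κ.toRingHom.injective
  have hs := trans_b hc.hab (x := fun l => κ (ξ l)) hind
  have h1 := relCl_one hs (A := ⟨A, hA⟩) (B := ⟨B, hB⟩) (C₀ := ⟨C₀, hC⟩) (v := v) (by
    intro h0
    exact hD (congrArg Subtype.val h0)) hv
  refine RelCl.mono h1 ?_
  have h2 : κ.fieldRange = IntermediateField.adjoin k (Set.range (fun l => κ (ξ l))) :=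
    range_field h.gp.gen (fun l => rfl)
  rw [h2, IntermediateField.adjoin_le_iff]
  rintro _ ⟨l, rfl⟩
  refine (IntermediateField.adjoin_le_iff.mpr ?_) (hl l)
  rintro z (hz1 | hz1)
  · exact IntermediateField.subset_adjoin k _ (Or.inl
      (IntermediateField.subset_adjoin k _ (Or.inl hz1)))
  · rcases hz1 with hz1 | hz1
    · rw [hz1]
      exact IntermediateField.subset_adjoin k _ (Or.inl
        (IntermediateField.subset_adjoin k _ (Or.inr rfl)))
    · rw [Set.mem_singleton_iff] at hz1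
      rw [hz1]
      exact IntermediateField.subset_adjoin k _ (Or.inr rfl)

end Big

/-- the involutions -/
structure Inv (f : MvPolynomial (Fin N) k) (a b : Fin N) (ξ : Fin N → K)
    (τ : Fin N → K ≃ₐ[k] K) : Prop where
  h1 : ∀ i, i ≠ a → i ≠ b → ∀ l, l ≠ i → τ i (ξ l) = ξ l
  h2 : ∀ i, i ≠ a → i ≠ b → τ i (ξ i) ≠ ξ i

/-- the fibrations -/
noncomputable def Lf (a b : Fin N) (ξ : Fin N → K) (τ : Fin N → K ≃ₐ[k] K)
    (o : Option {l : Fin N // l ≠ a ∧ l ≠ b}) : IntermediateField k K :=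
  match o with
  | none => Lb k a b ξ
  | some i => (Lb k a b ξ).map (τ i).toAlgHom

theorem vert {M : Type} [Field M] [Algebra k M] [Algebra K M] [IsScalarTower k K M] {E : Type}
    [Field E] [Algebra k E] (μ : M →ₐ[k] E) {S : Set K}
    (h : IntermediateField.adjoin K {z : M | IsAlgebraic (IntermediateField.adjoin k S) z} = ⊤) :
    μ.fieldRange ≤ (μ.comp (IsScalarTower.toAlgHom k K M)).fieldRange ⊔
      AC k ((μ.comp (IsScalarTower.toAlgHom k K M)) '' S) := by
  obtain ⟨κ, hκ⟩ : ∃ κ, κ = μ.comp (IsScalarTower.toAlgHom k K M) := ⟨_, rfl⟩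
  rw [← hκ]
  rintro _ ⟨m, rfl⟩
  have hm : m ∈ IntermediateField.adjoin K
      {z : M | IsAlgebraic (IntermediateField.adjoin k S) z} := by rw [h]; trivial
  change μ m ∈ _
  induction hm using IntermediateField.adjoin_induction with
  | mem z hz =>
    refine (le_sup_right : AC k (κ '' S) ≤ _) ?_
    rw [mem_AC]
    refine alg_lift (L := IntermediateField.adjoin k S) (μ : M →+* E) (fun c => ?_) hz
    have h1 : κ (c : K) ∈ (IntermediateField.adjoin k S).map κ := ⟨c, c.2, rfl⟩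
    rw [IntermediateField.adjoin_map] at h1
    refine ⟨⟨_, h1⟩, ?_⟩
    change κ (c : K) = _
    rw [hκ]
    rfl
  | algebraMap x =>
    refine (le_sup_left : κ.fieldRange ≤ _) ⟨x, ?_⟩
    rw [hκ]
    rfl
  | add x y _ _ hx hy => rw [map_add]; exact add_mem hx hy
  | inv x _ hx => rw [map_inv₀]; exact inv_mem hx
  | mul x y _ _ hx hy => rw [map_mul]; exact mul_mem hx hy

end Pool.Agent.R867.C
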