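import Pool.Agent.R867.C.Fin

/-! No covers which are constant for all the conic fibrations. -/

set_option autoImplicit false

namespace Pool.Agent.R867.C

open MvPolynomial Pool.Agent.TH178.HI Pool.Agent.R867.B Pool.Agent.R867.H Pool.Agent.R867.Mov

variable {N : ℕ} {k : Type} [Field k] {K : Type} [Field K] [Algebra k K]
  {f : MvPolynomial (Fin N) k} {a b : Fin N} {ξ : Fin N → K} {τ : Fin N → K ≃ₐ[k] K}

/-- the generators of the moved base -/
theorem Lf_some (i : {l : Fin N // l ≠ a ∧ l ≠ b}) : Lf a b ξ τ (some i) =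
    IntermediateField.adjoin k ((fun l => τ i (ξ l)) '' {l | l ≠ a ∧ l ≠ b}) := by
  change (IntermediateField.adjoin k (ξ '' {l | l ≠ a ∧ l ≠ b})).map (τ i).toAlgHom = _
  rw [IntermediateField.adjoin_map, Set.image_image]
  rfl

theorem no_cover [CharZero k] (hc : ∀ i, i ≠ a → i ≠ b → Cnd f a b i)
    (ho : ∃ i, i ≠ a ∧ i ≠ b) (hξ : GP f ξ) (hτ : Inv f a b ξ τ)
    (M : Type) [Field M] [Algebra k M] [Algebra K M] [IsScalarTower k K M] [FiniteDimensional K M]
    (hk : ∀ z : M, IsAlgebraic k z → z ∈ Set.range (algebraMap k M))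
    (hv : ∀ o, IntermediateField.adjoin K {z : M | IsAlgebraic (Lf a b ξ τ o) z} = ⊤) :
    Function.Surjective (algebraMap K M) := by
  classical
  obtain ⟨E, hE, hA, hcl, z0, hz0⟩ := big M Unit
  letI : Algebra k E := ((algebraMap M E).comp (algebraMap k M)).toAlgebra
  haveI : IsScalarTower k M E := IsScalarTower.of_algebraMap_eq fun _ => rfl
  haveI : CharZero E := charZero_of_injective_algebraMap (algebraMap k E).injective
  obtain ⟨μ, hμ⟩ : ∃ μ, μ = IsScalarTower.toAlgHom k M E := ⟨_, rfl⟩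
  have hμc : ∀ m, μ m = algebraMap M E m := fun m => by rw [hμ]; rfl
  obtain ⟨κ, hκ⟩ : ∃ κ, κ = μ.comp (IsScalarTower.toAlgHom k K M) := ⟨_, rfl⟩
  have hκc : ∀ x, κ x = μ (algebraMap K M x) := fun x => by rw [hκ]; rfl
  obtain ⟨u, hu⟩ : ∃ u, u = z0 () := ⟨_, rfl⟩
  have hutr : Transcendental M u := by
    rw [hu]
    exact hz0.transcendental ()
  have hucl : u ∉ cl k (Set.range κ) := by
    intro h
    have h1 := mem_cl_iff.mp h
    apply hutr
    refine alg_lift (T := M) (RingHom.id E) (fun c => ?_) h1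
    have h2 : IntermediateField.adjoin k (Set.range κ) ≤ μ.fieldRange := by
      rw [IntermediateField.adjoin_le_iff]
      rintro _ ⟨x, rfl⟩
      exact ⟨algebraMap K M x, (hκc x).symm⟩
    obtain ⟨m, hm⟩ := h2 c.2
    refine ⟨m, ?_⟩
    rw [← hμc]
    exact hm
  have hB : Big f a b ξ E κ u := ⟨hc, ho, hξ, hucl⟩
  have hrel := hB.rel
  have hKM : κ.fieldRange ≤ μ.fieldRange := by
    rintro _ ⟨x, rfl⟩
    exact ⟨algebraMap K M x, (hκc x).symm⟩
  have hgen : κ.fieldRange = IntermediateField.adjoin k (Set.range (fun l => κ (ξ l))) :=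
    range_field hξ.gen (fun l => rfl)
  obtain ⟨w, hw⟩ : ∃ w : {l : Fin N // l ≠ a ∧ l ≠ b} → E, w = fun l : {l : Fin N // l ≠ a ∧ l ≠ b} => κ (ξ l) :=
    ⟨_, rfl⟩
  have hwi : AlgebraicIndependent k w := by rw [hw]; exact hB.ind
  have hwr : Set.range w = κ '' (ξ '' {l | l ≠ a ∧ l ≠ b}) := by
    rw [hw, range_w, Set.image_image]
  have hwK : ∀ j, w j ∈ κ.fieldRange := by
    intro j
    rw [hw]
    exact ⟨ξ j, rfl⟩
  have h0 : μ.fieldRange ≤ κ.fieldRange ⊔ AC k (Set.range w) := by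
    rw [hwr]
    have h1 : IntermediateField.adjoin K {z : M | IsAlgebraic (IntermediateField.adjoin k
      (ξ '' {l | l ≠ a ∧ l ≠ b})) z} = ⊤ := hv none
    have h2 := vert μ h1
    rw [← hκ] at h2
    exact h2
  have hbot : RelCl ⊥ μ.fieldRange := by
    rintro _ ⟨m, rfl⟩ ha
    have h1 : IsAlgebraic k (μ m) := alg_lift (T := k) (RingHom.id E) (fun c => by
      obtain ⟨c', hc'⟩ := IntermediateField.mem_bot.mp c.2
      exact ⟨c', hc'⟩) ha
    have h2 : IsAlgebraic k m := (isAlgebraic_algHom_iff μ μ.toRingHom.injective).mp h1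
    obtain ⟨c, hc'⟩ := hk m h2
    rw [IntermediateField.mem_bot]
    refine ⟨c, ?_⟩
    change _ = μ m
    rw [← hc', AlgHom.commutes]
  have hmain := nc_main hwi hKM hwK h0 (fun i => ?_) hbot
  · intro m
    obtain ⟨x, hx⟩ := hmain ⟨m, rfl⟩
    refine ⟨x, ?_⟩
    apply μ.toRingHom.injective
    change μ _ = μ _
    rw [← hκc]
    exact hx
  · obtain ⟨Y, P, Q, t, Ta, Tb, hp, hm, hl, hall, htr⟩ := exists_par (hc i i.2.1 i.2.2) hξ
      (hτ.h1 i i.2.1 i.2.2) (hτ.h2 i i.2.1 i.2.2) κ hucl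
    have h1 := vert (S := (fun l => τ i (ξ l)) '' {l | l ≠ a ∧ l ≠ b}) μ (by
      have := hv (some i)
      rw [Lf_some] at this
      exact this)
    rw [← hκ] at h1
    have hSm : ∀ s ∈ κ '' ((fun l => τ i (ξ l)) '' {l | l ≠ a ∧ l ≠ b}), s ∈ AC k Y := by
      rintro _ ⟨_, ⟨l, ⟨hla, hlb⟩, rfl⟩, rfl⟩
      by_cases hli : l = i
      · rw [hli]
        exact hm
      · have := hl l hla hlb hli
        change κ (τ i (ξ l)) ∈ _
        rw [hτ.h1 i i.2.1 i.2.2 l hli]
        exact this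
    refine step_main (Λ := AC k Y) (acl Y) (fun y hy => AC_closed hy) hp.tr hp.cop hp.hQ hp.max4
      hp.hsq (c := ⟨κ (τ i (ξ i)), hm⟩) (w := w) (i := i) (by rw [hw]; exact hp.hTi)
      (by rw [hw]; exact htr) hwK (by rw [hw]; exact hrel)
      (S := κ '' ((fun l => τ i (ξ l)) '' {l | l ≠ a ∧ l ≠ b})) ?_ h1 ?_ ?_
    · rintro _ ⟨y, -, rfl⟩
      exact ⟨y, rfl⟩
    · refine sup_le ?_ ((AC_le hSm).trans (fun z hz => IntermediateField.subset_adjoin k _
        (Or.inl hz)))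
      rw [hgen, IntermediateField.adjoin_le_iff]
      rintro _ ⟨l, rfl⟩
      exact hall l
    · intro j hj
      rw [hw]
      exact hl j j.2.1 j.2.2 (fun h => hj (Subtype.ext h))

theorem hinv [CharZero k] (hc : ∀ i, i ≠ a → i ≠ b → Cnd f a b i)
    (ho : ∃ i, i ≠ a ∧ i ≠ b) (hξ : GP f ξ) (hτ : Inv f a b ξ τ) (z : K)
    (hz : ∀ o, IsAlgebraic (Lf a b ξ τ o) z) : z ∈ Set.range (algebraMap k K) := by
  classical
  obtain ⟨E, hE, hA, hcl, z0, hz0⟩ := big K Unit
  letI : Algebra k E := ((algebraMap K E).comp (algebraMap k K)).toAlgebra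
  haveI : IsScalarTower k K E := IsScalarTower.of_algebraMap_eq fun _ => rfl
  haveI : CharZero E := charZero_of_injective_algebraMap (algebraMap k E).injective
  obtain ⟨κ, hκ⟩ : ∃ κ, κ = IsScalarTower.toAlgHom k K E := ⟨_, rfl⟩
  have hκc : ∀ x, κ x = algebraMap K E x := fun x => by rw [hκ]; rfl
  obtain ⟨u, hu⟩ : ∃ u, u = z0 () := ⟨_, rfl⟩
  have hutr : Transcendental K u := by
    rw [hu]
    exact hz0.transcendental ()
  have hucl : u ∉ cl k (Set.range κ) := by
    intro h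
    have h1 := mem_cl_iff.mp h
    apply hutr
    refine alg_lift (T := K) (RingHom.id E) (fun c => ?_) h1
    have h2 : IntermediateField.adjoin k (Set.range κ) ≤ κ.fieldRange := by
      rw [IntermediateField.adjoin_le_iff]
      rintro _ ⟨x, rfl⟩
      exact ⟨x, rfl⟩
    obtain ⟨m, hm⟩ := h2 c.2
    refine ⟨m, ?_⟩
    rw [← hκc]
    exact hm
  have hB : Big f a b ξ E κ u := ⟨hc, ho, hξ, hucl⟩
  have hrel := hB.rel
  obtain ⟨w, hw⟩ : ∃ w : {l : Fin N // l ≠ a ∧ l ≠ b} → E, w = fun l : {l : Fin N // l ≠ a ∧ l ≠ b} => κ (ξ l) :=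
    ⟨_, rfl⟩
  have hwi : AlgebraicIndependent k w := by rw [hw]; exact hB.ind
  have hwr : Set.range w = κ '' (ξ '' {l | l ≠ a ∧ l ≠ b}) := by
    rw [hw, range_w, Set.image_image]
  have halg : κ z ∈ cl k (Set.range w) := by
    rw [mem_cl_iff, hwr]
    have h1 : IsAlgebraic (IntermediateField.adjoin k (ξ '' {l | l ≠ a ∧ l ≠ b})) z := hz none
    refine alg_lift (κ : K →+* E) (fun c => ?_) h1
    have h2 : κ (c : K) ∈ (IntermediateField.adjoin k (ξ '' {l | l ≠ a ∧ l ≠ b})).map κ :=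
      ⟨c, c.2, rfl⟩
    rw [IntermediateField.adjoin_map] at h2
    exact ⟨⟨_, h2⟩, rfl⟩
  -- one direction
  have hone : ∀ i, κ z ∈ cl k (w '' {j | j ≠ i}) := by
    intro i
    by_contra hcon
    obtain ⟨Y, P, Q, t, Ta, Tb, hp, hm, hl, hall, htr⟩ := exists_par (hc i i.2.1 i.2.2) hξ
      (hτ.h1 i i.2.1 i.2.2) (hτ.h2 i i.2.1 i.2.2) κ hucl
    have hSm : ∀ s ∈ κ '' ((fun l => τ i (ξ l)) '' {l | l ≠ a ∧ l ≠ b}), s ∈ AC k Y := by
      rintro _ ⟨_, ⟨l, ⟨hla, hlb⟩, rfl⟩, rfl⟩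
      by_cases hli : l = i
      · rw [hli]
        exact hm
      · have := hl l hla hlb hli
        change κ (τ i (ξ l)) ∈ _
        rw [hτ.h1 i i.2.1 i.2.2 l hli]
        exact this
    have hzY : κ z ∈ AC k Y := by
      have h1 := hz (some i)
      rw [Lf_some] at h1
      apply AC_closed
      refine alg_lift (T := AC k Y) (κ : K →+* E) (fun c => ?_) h1
      have h2 : κ (c : K) ∈ (IntermediateField.adjoin k
        ((fun l => τ i (ξ l)) '' {l | l ≠ a ∧ l ≠ b})).map κ := ⟨c, c.2, rfl⟩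
      rw [IntermediateField.adjoin_map] at h2
      have h3 : IntermediateField.adjoin k (κ '' ((fun l => τ i (ξ l)) '' {l | l ≠ a ∧ l ≠ b})) ≤
        AC k Y := IntermediateField.adjoin_le_iff.mpr hSm
      exact ⟨⟨_, h3 h2⟩, rfl⟩
    have h1 : Set.range w ⊆ insert (w i) (w '' {j | j ≠ i}) := by
      rintro _ ⟨j, rfl⟩
      rcases eq_or_ne j i with rfl | hj
      · exact Or.inl rfl
      · exact Or.inr ⟨j, hj, rfl⟩
    have h2 := cl_exch (cl_mono h1 halg) hcon
    have h3 := mem_cl_iff.mp h2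
    have h4 : IntermediateField.adjoin k (insert (κ z) (w '' {j | j ≠ i})) ≤ AC k Y := by
      rw [IntermediateField.adjoin_le_iff]
      rintro y (hy | ⟨j, hj, rfl⟩)
      · rw [hy]
        exact hzY
      · rw [hw]
        exact hl j j.2.1 j.2.2 (fun h => hj (Subtype.ext h))
    have h5 : IsAlgebraic (AC k Y) (w i) := isAlgebraic_mono h4 h3
    rw [hw] at h5
    exact htr h5
  haveI : Fintype {l : Fin N // l ≠ a ∧ l ≠ b} := Fintype.ofFinite _
  have hall : ∀ J : Finset {l : Fin N // l ≠ a ∧ l ≠ b}, κ z ∈ cl k (w '' {j | j ∉ J}) := by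
    intro J
    induction J using Finset.induction_on with
    | empty =>
      have h1 : w '' {j | j ∉ (∅ : Finset {l : Fin N // l ≠ a ∧ l ≠ b})} = Set.range w := by simp
      rw [h1]
      exact halg
    | insert i J hi ih =>
      by_contra hcon
      have h1 : w '' {j | j ∉ J} ⊆ insert (w i) (w '' {j | j ∉ insert i J}) := by
        rintro _ ⟨j, hj, rfl⟩
        rcases eq_or_ne j i with rfl | hji
        · exact Or.inl rfl
        · refine Or.inr ⟨j, ?_, rfl⟩
          simp only [Finset.mem_insert, not_or, Set.mem_setOf_eq]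
          exact ⟨hji, hj⟩
      have h2 := cl_exch (cl_mono h1 ih) hcon
      have h3 : insert (κ z) (w '' {j | j ∉ insert i J}) ⊆ cl k (w '' {j | j ≠ i}) := by
        rintro y (hy | ⟨j, hj, rfl⟩)
        · rw [hy]
          exact hone i
        · simp only [Finset.mem_insert, not_or, Set.mem_setOf_eq] at hj
          exact subset_cl _ ⟨j, hj.1, rfl⟩
      exact notMem_cl hwi (J := {j | j ≠ i}) (by simp) (cl_sub h3 h2)
  have h1 := hall Finset.univ
  have h2 : κ z ∈ IntermediateField.adjoin k (Set.range w) := by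
    have h3 := hrel (κ z) ⟨z, rfl⟩
    rw [hw]
    apply h3
    rw [← hw]
    exact mem_cl_iff.mp halg
  have h3 := mem_adjoin_of_cl hwi {j | j ∉ (Finset.univ : Finset {l : Fin N // l ≠ a ∧ l ≠ b})}
    h2 h1
  have h4 : w '' {j | j ∉ (Finset.univ : Finset {l : Fin N // l ≠ a ∧ l ≠ b})} = ∅ := by simp
  rw [h4, IntermediateField.adjoin_empty, IntermediateField.mem_bot] at h3
  obtain ⟨c, hc'⟩ := h3
  refine ⟨c, ?_⟩
  apply κ.toRingHom.injective
  change κ _ = κ _
  rw [← hc', AlgHom.commutes]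

end Pool.Agent.R867.C
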