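import Pool.Agent.R867.C.Kum

/-! Extensions of degree 4 which contain a nontrivial Galois extension contain a square root. -/

set_option autoImplicit false

namespace Pool.Agent.R867.C

open Polynomial

theorem quad_sqrt {F T : Type} [Field F] [CharZero F] [Field T] [Algebra F T]
    (E : IntermediateField F T) (h : Module.finrank F E = 2) :
    ∃ t : T, t ∉ Set.range (algebraMap F T) ∧ t ^ 2 ∈ Set.range (algebraMap F T) := by
  haveI : CharZero T := charZero_of_injective_algebraMap (algebraMap F T).injective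
  haveI : FiniteDimensional F E := Module.finite_of_finrank_pos (by omega)
  obtain ⟨s, hs⟩ : ∃ s : E, s ∉ Set.range (algebraMap F E) := by
    by_contra hcon
    push Not at hcon
    have h1 : (⊤ : IntermediateField F E) = ⊥ := by
      rw [eq_comm, eq_top_iff]
      intro x _
      exact IntermediateField.mem_bot.mpr (hcon x)
    have h2 : Module.finrank F E = 1 := by
      have h3 : Module.finrank F (⊤ : IntermediateField F E) = 1 := by
        rw [h1]
        exact IntermediateField.finrank_bot
      rw [IntermediateField.finrank_top'] at h3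
      exact h3
    omega
  have hint : IsIntegral F s := IsIntegral.of_finite F s
  have hd1 : (minpoly F s).natDegree ∣ 2 := h ▸ minpoly.degree_dvd hint
  have hd2 : (minpoly F s).natDegree ≠ 1 := by
    intro h1
    exact hs (minpoly.mem_range_of_degree_eq_one F s
      (by rw [degree_eq_natDegree (minpoly.ne_zero hint), h1]; rfl))
  have hd3 : (minpoly F s).natDegree = 2 := by
    rcases (Nat.dvd_prime Nat.prime_two).mp hd1 with h1 | h1
    · exact absurd h1 hd2
    · exact h1
  have hm := minpoly.monic hint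
  have h0 := minpoly.aeval F s
  rw [aeval_eq_sum_range, hd3, Finset.sum_range_succ, Finset.sum_range_succ,
    Finset.sum_range_one] at h0
  have hlc : (minpoly F s).coeff 2 = 1 := by
    have := hm.coeff_natDegree
    rwa [hd3] at this
  rw [hlc] at h0
  obtain ⟨b, hb⟩ : ∃ b, b = (minpoly F s).coeff 1 := ⟨_, rfl⟩
  obtain ⟨c, hc⟩ : ∃ c, c = (minpoly F s).coeff 0 := ⟨_, rfl⟩
  rw [← hb, ← hc] at h0
  simp only [Algebra.smul_def, map_one, pow_zero, pow_one, mul_one, one_mul] at h0
  have h1 : algebraMap F T c + algebraMap F T b * (s : T) + (s : T) ^ 2 = 0 := by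
    have := congrArg (algebraMap E T) h0
    simpa using this
  refine ⟨2 * (s : T) + algebraMap F T b, ?_, b ^ 2 - 4 * c, ?_⟩
  · rintro ⟨x, hx⟩
    apply hs
    refine ⟨(x - b) / 2, ?_⟩
    apply (algebraMap E T).injective
    have h2 : (2 : T) ≠ 0 := two_ne_zero
    have h3 : (algebraMap E T) (algebraMap F E ((x - b) / 2)) = algebraMap F T ((x - b) / 2) := rfl
    have h4 : algebraMap E T s = (s : T) := rfl
    rw [h3, h4, map_div₀, map_sub, hx, map_ofNat]
    field_simp
    ring
  · rw [map_sub, map_mul, map_pow]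
    simp only [map_ofNat]
    linear_combination (-4) * h1

theorem gal_sqrt {F T : Type} [Field F] [CharZero F] [Field T] [Algebra F T]
    (h4 : Module.finrank F T = 4) {p : F[X]} (hp : p.Separable)
    (hs : (p.map (algebraMap F T)).Splits) {r : T} (hr : aeval r p = 0)
    (hrF : r ∉ Set.range (algebraMap F T)) :
    ∃ t : T, t ∉ Set.range (algebraMap F T) ∧ t ^ 2 ∈ Set.range (algebraMap F T) := by
  haveI : FiniteDimensional F T := Module.finite_of_finrank_pos (by omega)
  set E : IntermediateField F T := IntermediateField.adjoin F (p.rootSet T) with hE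
  haveI : IsSplittingField F E p := IntermediateField.adjoin_rootSet_isSplittingField hs
  haveI : IsGalois F E := IsGalois.of_separable_splitting_field hp
  have hrE : r ∈ E := IntermediateField.subset_adjoin F _
    ((mem_rootSet).mpr ⟨hp.ne_zero, hr⟩)
  have hmul := Module.finrank_mul_finrank F E T
  have hne1 : Module.finrank F E ≠ 1 := by
    intro h1
    rw [IntermediateField.finrank_eq_one_iff] at h1
    rw [h1, IntermediateField.mem_bot] at hrE
    exact hrF hrE
  have hdvd : Module.finrank F E ∣ 2 ^ 2 := ⟨_, by rw [hmul, h4]; norm_num⟩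
  obtain ⟨j, hj, hj2⟩ := (Nat.dvd_prime_pow Nat.prime_two).mp hdvd
  obtain ⟨i, rfl⟩ : ∃ i, j = i + 1 := by
    cases j with
    | zero => exact absurd hj2 (by simpa using hne1)
    | succ i => exact ⟨i, rfl⟩
  have hcard : Nat.card (E ≃ₐ[F] E) = 2 ^ (i + 1) := by
    rw [IsGalois.card_aut_eq_finrank, hj2]
  haveI : Fact (Nat.Prime 2) := ⟨Nat.prime_two⟩
  obtain ⟨H, hH⟩ := Sylow.exists_subgroup_card_pow_prime (G := E ≃ₐ[F] E) 2 (n := i)
    (by rw [hcard]; exact pow_dvd_pow 2 (Nat.le_succ i))
  have h5 := IntermediateField.finrank_fixedField_eq_card H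
  rw [hH] at h5
  have h6 := Module.finrank_mul_finrank F (IntermediateField.fixedField H) E
  rw [h5, hj2] at h6
  have h7 : Module.finrank F (IntermediateField.fixedField H) = 2 := by
    have h8 : (2 : ℕ) ^ i ≠ 0 := by positivity
    have h9 : Module.finrank F (IntermediateField.fixedField H) * 2 ^ i = 2 * 2 ^ i := by
      rw [h6, pow_succ]; ring
    exact Nat.eq_of_mul_eq_mul_right (Nat.pos_of_ne_zero h8) h9
  obtain ⟨t, ht1, ht2⟩ := quad_sqrt (IntermediateField.fixedField H) h7
  refine ⟨(t : T), ?_, ?_⟩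
  · rintro ⟨x, hx⟩
    apply ht1
    refine ⟨x, ?_⟩
    apply (algebraMap E T).injective
    rw [← IsScalarTower.algebraMap_apply, hx]
    rfl
  · obtain ⟨x, hx⟩ := ht2
    refine ⟨x, ?_⟩
    rw [IsScalarTower.algebraMap_apply F E T, hx]
    rfl

variable {Λ : Type} [Field Λ]

theorem nd_eq {a b : Λ[X]} (h1 : a ∣ b) (h2 : b ∣ a) : a.natDegree = b.natDegree := by
  rcases eq_or_ne b 0 with rfl | hb
  · rw [zero_dvd_iff.mp h2]
  · have ha : a ≠ 0 := by
      rintro rfl
      exact hb (zero_dvd_iff.mp h1)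
    exact le_antisymm (natDegree_le_of_dvd h1 hb) (natDegree_le_of_dvd h2 ha)

theorem fin4 {n d : Λ[X]} (hc : IsCoprime n d) (hd : d ≠ 0)
    (hmax : max n.natDegree d.natDegree = 4) :
    Module.finrank (IntermediateField.adjoin Λ {qf n d}) (RatFunc Λ) = 4 := by
  have h := RatFunc.finrank_eq_max_natDegree (qf n d)
  have h1 : (qf n d).num * d = n * (qf n d).denom := by
    apply RatFunc.algebraMap_injective Λ
    rw [map_mul, map_mul]
    have h2 := RatFunc.num_div_denom (qf n d)
    have h3 := am_ne (RatFunc.denom_ne_zero (qf n d))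
    have h4 := am_ne hd
    rw [div_eq_iff h3] at h2
    have h5 : qf n d * algebraMap Λ[X] (RatFunc Λ) d = algebraMap Λ[X] (RatFunc Λ) n :=
      div_mul_cancel₀ _ h4
    rw [h2]
    linear_combination (algebraMap Λ[X] (RatFunc Λ) (qf n d).denom) * h5
  have h2 := RatFunc.isCoprime_num_denom (qf n d)
  have e1 : n ∣ (qf n d).num := hc.dvd_of_dvd_mul_right ⟨_, h1⟩
  have e2 : (qf n d).num ∣ n := h2.dvd_of_dvd_mul_right ⟨_, h1.symm⟩
  have e3 : d ∣ (qf n d).denom := hc.symm.dvd_of_dvd_mul_left ⟨(qf n d).num, by rw [← h1]; ring⟩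
  have e4 : (qf n d).denom ∣ d := h2.symm.dvd_of_dvd_mul_left ⟨n, by rw [h1]; ring⟩
  rw [h, nd_eq e2 e1, nd_eq e4 e3, hmax]

theorem kum_gal [IsAlgClosed Λ] [CharZero Λ] {n d : Λ[X]} (hc : IsCoprime n d)
    (hd : d ≠ 0) (hmax : max n.natDegree d.natDegree = 4)
    (hsq : ∀ (a c : Λ) (w : Λ[X]), n - C a * d ≠ C c * w ^ 2)
    (p : (IntermediateField.adjoin Λ {qf n d})[X]) (hp : p.Separable)
    (hs : (p.map (algebraMap (IntermediateField.adjoin Λ {qf n d}) (RatFunc Λ))).Splits)
    {r : RatFunc Λ} (hr : aeval r p = 0) : r ∈ IntermediateField.adjoin Λ {qf n d} := by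
  by_contra hrF
  obtain ⟨t, ht1, ht2⟩ := gal_sqrt (fin4 hc hd hmax) hp hs hr (by
    rintro ⟨x, hx⟩
    exact hrF (hx ▸ x.2))
  have htF : t ∉ IntermediateField.adjoin Λ {qf n d} := fun h => ht1 ⟨⟨t, h⟩, rfl⟩
  have ht2F : t ^ 2 ∈ IntermediateField.adjoin Λ {qf n d} := by
    obtain ⟨x, hx⟩ := ht2
    rw [← hx]
    exact x.2
  obtain ⟨u, v, huv⟩ := (IntermediateField.mem_adjoin_simple_iff _ _).mp ht2F
  have ht0 : t ≠ 0 := by
    rintro rfl
    exact htF (zero_mem _)
  have hv : aeval (qf n d) v ≠ 0 := by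
    intro h
    rw [h, div_zero] at huv
    exact ht0 (pow_eq_zero_iff (by norm_num) |>.mp huv)
  have hu : aeval (qf n d) u ≠ 0 := by
    intro h
    rw [h, zero_div] at huv
    exact ht0 (pow_eq_zero_iff (by norm_num) |>.mp huv)
  have hvF : aeval (qf n d) v ∈ IntermediateField.adjoin Λ {qf n d} :=
    IntermediateField.algebra_adjoin_le_adjoin _ _ (aeval_mem_adjoin_singleton _ _)
  obtain ⟨a, c, w, h⟩ := kum_sq hc hd (fun a h => hsq a 0 0 (by rw [h]; simp))
    (IntermediateField.adjoin Λ {qf n d}).toSubfield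
    (IntermediateField.subset_adjoin Λ _ (Set.mem_singleton _))
    (fun a => IntermediateField.algebraMap_mem _ a) _ (u * v) (t * aeval (qf n d) v) rfl
    (by
      intro h
      rcases mul_eq_zero.mp h with h | h
      · exact hu (by rw [h, map_zero])
      · exact hv (by rw [h, map_zero]))
    (by rw [mul_pow, huv, map_mul]; field_simp)
    (by
      intro h
      apply htF
      have h2 : t * aeval (qf n d) v ∈ IntermediateField.adjoin Λ {qf n d} := h
      have := div_mem h2 hvF
      rwa [mul_div_cancel_right₀ _ hv] at this)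
  exact hsq a c w h

end Pool.Agent.R867.C
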