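import Mathlib

/-! The pencil of quartics of a conic bundle on a line times a plane. -/

set_option autoImplicit false

namespace Pool.Agent.R867.C

open Polynomial

section Defs

variable {S : Type} [CommRing S]

/-- linear part of the conic at the slope `T` -/
noncomputable def lP (c : ℕ → ℕ → ℕ → S) : S[X] := C (c 1 0 0) + C (c 0 1 0) * X

/-- quadratic part -/
noncomputable def qP (c : ℕ → ℕ → ℕ → S) : S[X] :=
  C (c 2 0 0) + C (c 1 1 0) * X + C (c 0 2 0) * X ^ 2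

/-- the coefficient conic number `r` on the parametrized conic -/
noncomputable def HP (c : ℕ → ℕ → ℕ → S) (r : ℕ) : S[X] :=
  C (c 0 0 r) * qP c ^ 2 - (C (c 1 0 r) + C (c 0 1 r) * X) * lP c * qP c +
    (C (c 2 0 r) + C (c 1 1 r) * X + C (c 0 2 r) * X ^ 2) * lP c ^ 2

/-- the coefficient `j` of `P - a Q` as a polynomial in `a` -/
noncomputable def cf (P Q : S[X]) (j : ℕ) : S[X] := C (P.coeff j) - C (Q.coeff j) * X

/-- first condition -/
noncomputable def Rp (P Q : S[X]) : S[X] :=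
  cf P Q 3 ^ 3 - 4 * cf P Q 4 * cf P Q 3 * cf P Q 2 + 8 * cf P Q 4 ^ 2 * cf P Q 1

/-- second condition -/
noncomputable def Up (P Q : S[X]) : S[X] :=
  (4 * cf P Q 4 * cf P Q 2 - cf P Q 3 ^ 2) ^ 2 - 64 * cf P Q 4 ^ 3 * cf P Q 0

/-- the universal polynomial -/
noncomputable def phi (c : ℕ → ℕ → ℕ → S) : S :=
  resultant (-HP c 1) (HP c 2) 4 4 * resultant (Rp (-HP c 1) (HP c 2)) (Up (-HP c 1) (HP c 2)) 3 4

variable {S' : Type} [CommRing S'] (ψ : S →+* S')

theorem HP_map (c : ℕ → ℕ → ℕ → S) (r : ℕ) :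
    (HP c r).map ψ = HP (fun i j l => ψ (c i j l)) r := by
  simp only [HP, qP, lP, Polynomial.map_add, Polynomial.map_sub, Polynomial.map_mul,
    Polynomial.map_pow, map_C, map_X]

theorem cf_map (P Q : S[X]) (j : ℕ) : (cf P Q j).map ψ = cf (P.map ψ) (Q.map ψ) j := by
  simp only [cf, Polynomial.map_sub, Polynomial.map_mul, map_C, map_X, coeff_map]

theorem Rp_map (P Q : S[X]) : (Rp P Q).map ψ = Rp (P.map ψ) (Q.map ψ) := by
  simp only [Rp, Polynomial.map_add, Polynomial.map_sub, Polynomial.map_mul,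
    Polynomial.map_pow, cf_map, Polynomial.map_ofNat]

theorem Up_map (P Q : S[X]) : (Up P Q).map ψ = Up (P.map ψ) (Q.map ψ) := by
  simp only [Up, Polynomial.map_sub, Polynomial.map_mul,
    Polynomial.map_pow, cf_map, Polynomial.map_ofNat]

theorem phi_map (c : ℕ → ℕ → ℕ → S) : ψ (phi c) = phi (fun i j l => ψ (c i j l)) := by
  unfold phi
  rw [map_mul, ← resultant_map_map, ← resultant_map_map, Rp_map, Up_map, Polynomial.map_neg,
    HP_map, HP_map]

theorem sub_le {p q : S[X]} {n : ℕ} (hp : p.natDegree ≤ n) (hq : q.natDegree ≤ n) :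
    (p - q).natDegree ≤ n := (natDegree_sub_le_of_le hp hq).trans (max_self n).le

theorem lP_deg (c : ℕ → ℕ → ℕ → S) : (lP c).natDegree ≤ 1 := by
  unfold lP
  compute_degree

theorem qP_deg (c : ℕ → ℕ → ℕ → S) : (qP c).natDegree ≤ 2 := by
  unfold qP
  compute_degree

theorem HP_deg (c : ℕ → ℕ → ℕ → S) (r : ℕ) : (HP c r).natDegree ≤ 4 := by
  have h1 := lP_deg c
  have h2 := qP_deg c
  have h3 : (C (c 1 0 r) + C (c 0 1 r) * X : S[X]).natDegree ≤ 1 := by compute_degree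
  have h4 : (C (c 2 0 r) + C (c 1 1 r) * X + C (c 0 2 r) * X ^ 2 : S[X]).natDegree ≤ 2 := by
    compute_degree
  unfold HP
  refine natDegree_add_le_of_degree_le (sub_le ?_ ?_) ?_
  · refine (natDegree_C_mul_le _ _).trans ((natDegree_pow_le).trans ?_)
    omega
  · refine (natDegree_mul_le_of_le (natDegree_mul_le_of_le h3 h1) h2).trans ?_
    norm_num
  · refine (natDegree_mul_le_of_le h4 ((natDegree_pow_le).trans (Nat.mul_le_mul_left 2 h1))).trans ?_
    norm_num

theorem cf_deg (P Q : S[X]) (j : ℕ) : (cf P Q j).natDegree ≤ 1 := by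
  unfold cf
  compute_degree

theorem pw {p : S[X]} {d : ℕ} (h : p.natDegree ≤ d) (n : ℕ) : (p ^ n).natDegree ≤ n * d :=
  natDegree_pow_le.trans (Nat.mul_le_mul_left n h)

theorem num_deg (n : ℕ) [n.AtLeastTwo] : (ofNat(n) : S[X]).natDegree ≤ 0 :=
  (natDegree_ofNat n).le

theorem Rp_deg (P Q : S[X]) : (Rp P Q).natDegree ≤ 3 := by
  have h := cf_deg P Q
  unfold Rp
  refine natDegree_add_le_of_degree_le (sub_le ?_ ?_) ?_
  · exact (pw (h 3) 3).trans (by norm_num)
  · refine (natDegree_mul_le_of_le (natDegree_mul_le_of_le (natDegree_mul_le_of_le (num_deg 4)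
      (h 4)) (h 3)) (h 2)).trans (by norm_num)
  · refine (natDegree_mul_le_of_le (natDegree_mul_le_of_le (num_deg 8) (pw (h 4) 2))
      (h 1)).trans (by norm_num)

theorem Up_deg (P Q : S[X]) : (Up P Q).natDegree ≤ 4 := by
  have h := cf_deg P Q
  unfold Up
  refine sub_le ?_ ?_
  · refine (pw (sub_le (n := 2) ?_ ?_) 2).trans (by norm_num)
    · exact (natDegree_mul_le_of_le (natDegree_mul_le_of_le (num_deg 4) (h 4)) (h 2)).trans
        (by norm_num)
    · exact (pw (h 3) 2).trans (by norm_num)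
  · exact (natDegree_mul_le_of_le (natDegree_mul_le_of_le (num_deg 64) (pw (h 4) 3))
      (h 0)).trans (by norm_num)

end Defs

section Field

variable {Λ : Type} [Field Λ]

theorem cop_of_res {P Q : Λ[X]} (hP : P.natDegree ≤ 4) (hQ : Q.natDegree ≤ 4)
    (h : resultant P Q 4 4 ≠ 0) : IsCoprime P Q ∧ max P.natDegree Q.natDegree = 4 := by
  constructor
  · obtain ⟨p, q, -, -, hpq⟩ := exists_mul_add_mul_eq_C_resultant P Q hP hQ (by norm_num)
    refine ⟨C (resultant P Q 4 4)⁻¹ * p, C (resultant P Q 4 4)⁻¹ * q, ?_⟩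
    have h1 : (C (resultant P Q 4 4)⁻¹ : Λ[X]) * C (resultant P Q 4 4) = 1 := by
      rw [← C_mul, inv_mul_cancel₀ h, C_1]
    rw [← h1, ← hpq]
    ring
  · by_contra hne
    apply h
    apply resultant_eq_zero_of_lt_lt
    · have := max_le hP hQ
      have h3 : max P.natDegree Q.natDegree < 4 := lt_of_le_of_ne this hne
      exact (le_max_left _ _).trans_lt h3
    · have := max_le hP hQ
      have h3 : max P.natDegree Q.natDegree < 4 := lt_of_le_of_ne this hne
      exact (le_max_right _ _).trans_lt h3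

theorem sq_coeffs {w : Λ[X]} (hw : w.natDegree ≤ 2) (c : Λ) :
    (C c * w ^ 2).coeff 4 = c * w.coeff 2 ^ 2 ∧
    (C c * w ^ 2).coeff 3 = c * (2 * w.coeff 2 * w.coeff 1) ∧
    (C c * w ^ 2).coeff 2 = c * (w.coeff 1 ^ 2 + 2 * w.coeff 2 * w.coeff 0) ∧
    (C c * w ^ 2).coeff 1 = c * (2 * w.coeff 1 * w.coeff 0) ∧
    (C c * w ^ 2).coeff 0 = c * w.coeff 0 ^ 2 := by
  have h3 : w.coeff 3 = 0 := coeff_eq_zero_of_natDegree_lt (by omega)
  have h4 : w.coeff 4 = 0 := coeff_eq_zero_of_natDegree_lt (by omega)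
  refine ⟨?_, ?_, ?_, ?_, ?_⟩ <;>
  · rw [coeff_C_mul, sq, coeff_mul]
    simp only [Finset.Nat.antidiagonal_succ, Finset.Nat.antidiagonal_zero, Finset.map_singleton,
      Finset.sum_cons, Finset.sum_singleton, Finset.map_cons, Function.Embedding.prodMap,
      Function.Embedding.coeFn_mk, Prod.map_apply, Function.Embedding.refl_apply]
    try simp only [Nat.succ_eq_add_one, Nat.reduceAdd, zero_add, h3, h4]
    ring

theorem no_sq [CharZero Λ] {P Q : Λ[X]} (hP : P.natDegree ≤ 4) (hQ : Q.natDegree ≤ 4)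
    (h : resultant (Rp P Q) (Up P Q) 3 4 ≠ 0) (a c : Λ) (w : Λ[X]) : P - C a * Q ≠ C c * w ^ 2 := by
  intro he
  apply h
  have hw : c = 0 ∨ w.natDegree ≤ 2 := by
    by_cases hc : c = 0
    · exact Or.inl hc
    · right
      have h1 : (C c * w ^ 2).natDegree ≤ 4 := by
        rw [← he]
        exact sub_le hP ((natDegree_C_mul_le _ _).trans hQ)
      rw [natDegree_C_mul hc, natDegree_pow] at h1
      omega
  have hcf : ∀ j, (cf P Q j).eval a = (C c * w ^ 2).coeff j := by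
    intro j
    rw [← he, cf, eval_sub, eval_mul, eval_C, eval_C, eval_X, coeff_sub, coeff_C_mul]
    ring
  have hR : (Rp P Q).eval a = 0 := by
    unfold Rp
    simp only [eval_add, eval_sub, eval_mul, eval_pow, eval_ofNat, hcf]
    rcases hw with rfl | hw
    · simp
    · obtain ⟨e4, e3, e2, e1, e0⟩ := sq_coeffs hw c
      rw [e4, e3, e2, e1]
      ring
  have hU : (Up P Q).eval a = 0 := by
    unfold Up
    simp only [eval_sub, eval_mul, eval_pow, eval_ofNat, hcf]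
    rcases hw with rfl | hw
    · simp
    · obtain ⟨e4, e3, e2, e1, e0⟩ := sq_coeffs hw c
      rw [e4, e3, e2, e0]
      ring
  obtain ⟨p, q, -, -, hpq⟩ := exists_mul_add_mul_eq_C_resultant (Rp P Q) (Up P Q) (Rp_deg P Q)
    (Up_deg P Q) (by norm_num)
  have h1 := congrArg (fun r => r.eval a) hpq
  simp only [eval_add, eval_mul, hR, hU, zero_mul, add_zero, eval_C] at h1
  exact h1.symm

end Field

/-- the example -/
def c0 (i j r : ℕ) : ℚ :=
  if (i, j, r) = (1, 1, 2) then 1 else if (i, j, r) = (0, 2, 1) then -1 else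
  if (i, j, r) = (0, 0, 1) then -1 else if (i, j, r) = (2, 0, 0) then 1 else
  if (i, j, r) = (0, 1, 0) then -1 else 0

theorem lP0 : lP c0 = -X := by
  simp [lP, c0]

theorem qP0 : qP c0 = 1 := by
  simp [qP, c0]

theorem HP01 : -HP c0 1 = X ^ 4 + 1 := by
  rw [HP, lP0, qP0]
  simp [c0]
  ring

theorem HP02 : HP c0 2 = X ^ 3 := by
  rw [HP, lP0, qP0]
  simp [c0]
  ring

theorem phi0 : phi c0 ≠ 0 := by
  have e : ∀ j, cf (X ^ 4 + 1 : ℚ[X]) (X ^ 3) j = C ((X ^ 4 + 1 : ℚ[X]).coeff j) -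
    C ((X ^ 3 : ℚ[X]).coeff j) * X := fun _ => rfl
  have e0 : cf (X ^ 4 + 1 : ℚ[X]) (X ^ 3) 0 = 1 := by
    rw [e]; simp
  have e1 : cf (X ^ 4 + 1 : ℚ[X]) (X ^ 3) 1 = 0 := by
    rw [e]; simp [coeff_X_pow, coeff_one]
  have e2 : cf (X ^ 4 + 1 : ℚ[X]) (X ^ 3) 2 = 0 := by
    rw [e]; simp [coeff_X_pow, coeff_one]
  have e3 : cf (X ^ 4 + 1 : ℚ[X]) (X ^ 3) 3 = - X := by
    rw [e]; simp [coeff_X_pow, coeff_one]
  have e4 : cf (X ^ 4 + 1 : ℚ[X]) (X ^ 3) 4 = 1 := by
    rw [e]; simp [coeff_X_pow, coeff_one]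
  have hR : Rp (X ^ 4 + 1 : ℚ[X]) (X ^ 3) = C (-1) * X ^ 3 := by
    unfold Rp
    rw [e4, e3, e2, e1]
    simp
    ring
  have hU : Up (X ^ 4 + 1 : ℚ[X]) (X ^ 3) = X ^ 4 - C 64 := by
    unfold Up
    rw [e4, e3, e2, e0, show (C (64:ℚ)) = (64 : ℚ[X]) from map_ofNat C 64]
    simp
    ring
  unfold phi
  rw [HP01, HP02, hR, hU]
  refine mul_ne_zero ?_ ?_
  · have h1 := resultant_add_right_deg (f := (X ^ 4 + 1 : ℚ[X])) (g := X ^ 3) (m := 4) (n := 3) 1
      (by simp)
    rw [show (3 + 1 : ℕ) = 4 from rfl] at h1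
    rw [h1, resultant_X_pow_right _ _ _ (by compute_degree)]
    simp [coeff_one]
  · rw [resultant_C_mul_left, resultant_X_pow_left _ _ _ (by compute_degree)]
    simp

end Pool.Agent.R867.C
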