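import Pool.Agent.R867.C.Stp

/-! The conjugates of the elements of a cover. -/

set_option autoImplicit false

namespace Pool.Agent.R867.C

open Polynomial Pool.Agent.TH178.HI Pool.Agent.R867.B

variable {k E : Type} [Field k] [Field E] [Algebra k E]

/-- the minimal polynomial over a field in which `L1` is algebraically closed -/
theorem minpoly_rel {L1 K0 : IntermediateField k E} (hLK : L1 ≤ K0) (hcl : RelCl L1 K0) {γ : E}
    (hγ : IsAlgebraic L1 γ) {z : E} (hz : aeval z (minpoly L1 γ) = 0) :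
    aeval z (minpoly K0 γ) = 0 := by
  letI : Algebra L1 K0 := (IntermediateField.inclusion hLK).toRingHom.toAlgebra
  haveI : IsScalarTower L1 K0 E := IsScalarTower.of_algebraMap_eq fun _ => rfl
  have hint : IsIntegral L1 γ := hγ.isIntegral
  have hintM : IsIntegral K0 γ := hint.tower_top
  have h1 : minpoly K0 γ ∣ (minpoly L1 γ).map (algebraMap L1 K0) :=
    minpoly.dvd_map_of_isScalarTower L1 K0 γ
  have h2 := integralClosure.mem_lifts_of_monic_of_dvd_map K0 (minpoly.monic hint)
    (minpoly.monic hintM) h1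
  have h3 : ∀ n, ∃ d : L1, algebraMap L1 K0 d = (minpoly K0 γ).coeff n := by
    intro n
    obtain ⟨q, hq⟩ := (mem_lifts _).mp h2
    have h4 : (minpoly K0 γ).coeff n = algebraMap (integralClosure L1 K0) K0 (q.coeff n) := by
      rw [← hq, coeff_map]
    have h5 : IsIntegral L1 ((minpoly K0 γ).coeff n) := by
      rw [h4]
      exact (q.coeff n).2
    have h6 : IsAlgebraic L1 ((minpoly K0 γ).coeff n : E) :=
      (h5.map (IsScalarTower.toAlgHom L1 K0 E)).isAlgebraic
    refine ⟨⟨_, hcl _ ((minpoly K0 γ).coeff n).2 h6⟩, ?_⟩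
    apply Subtype.ext
    rfl
  obtain ⟨m', hm'⟩ : ∃ m' : L1[X], m'.map (algebraMap L1 K0) = minpoly K0 γ := by
    have : minpoly K0 γ ∈ lifts (algebraMap L1 K0) := by
      rw [lifts_iff_coeff_lifts]
      intro n
      obtain ⟨d, hd⟩ := h3 n
      exact ⟨d, hd⟩
    exact (mem_lifts _).mp this
  have h4 : aeval γ m' = 0 := by
    have h5 : aeval γ (m'.map (algebraMap L1 K0)) = 0 := by rw [hm', minpoly.aeval]
    rwa [aeval_map_algebraMap] at h5
  obtain ⟨q, hq⟩ := minpoly.dvd L1 γ h4
  rw [← hm', aeval_map_algebraMap, hq, map_mul, hz, zero_mul]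

theorem roots_in [IsAlgClosed E] {K0 : IntermediateField k E} {S : Set E} (hS : S ⊆ K0) {γ z : E}
    (hγ : γ ∈ K0 ⊔ AC k S) (hz : aeval z (minpoly K0 γ) = 0) : z ∈ K0 ⊔ AC k S := by
  have hSK : IntermediateField.adjoin k S ≤ K0 := IntermediateField.adjoin_le_iff.mpr hS
  have hle : K0 ⊔ AC k S ≤ (IntermediateField.adjoin K0 (AC k S : Set E)).restrictScalars k := by
    refine sup_le ?_ ?_
    · intro y hy
      exact IntermediateField.algebraMap_mem _ (⟨y, hy⟩ : K0)
    · intro y hy
      exact IntermediateField.subset_adjoin K0 _ hy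
  have hge : ∀ y ∈ IntermediateField.adjoin K0 (AC k S : Set E), y ∈ K0 ⊔ AC k S := by
    intro y hy
    induction hy using IntermediateField.adjoin_induction with
    | mem x hx => exact (le_sup_right : AC k S ≤ _) hx
    | algebraMap x => exact (le_sup_left : K0 ≤ _) x.2
    | add x y _ _ hx hy => exact add_mem hx hy
    | inv x _ hx => exact inv_mem hx
    | mul x y _ _ hx hy => exact mul_mem hx hy
  apply hge
  letI : Algebra (IntermediateField.adjoin k S) K0 :=
    (IntermediateField.inclusion hSK).toRingHom.toAlgebra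
  haveI : IsScalarTower (IntermediateField.adjoin k S) K0 E :=
    IsScalarTower.of_algebraMap_eq fun _ => rfl
  have h1 : ∀ x ∈ (AC k S : Set E), IsIntegral K0 x ∧ ((minpoly K0 x).map
      (algebraMap K0 (IntermediateField.adjoin K0 (AC k S : Set E)))).Splits := by
    intro x hx
    have hxa : IsAlgebraic (IntermediateField.adjoin k S) x := mem_AC.mp hx
    have hint : IsIntegral K0 x := (isAlgebraic_mono hSK hxa).isIntegral
    refine ⟨hint, ?_⟩
    refine IntermediateField.splits_of_splits (IsAlgClosed.splits _) ?_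
    intro y hy
    refine IntermediateField.subset_adjoin K0 _ ?_
    have h2 : aeval y (minpoly K0 x) = 0 := (mem_rootSet.mp hy).2
    have h3 : minpoly K0 x ∣ (minpoly (IntermediateField.adjoin k S) x).map (algebraMap _ K0) :=
      minpoly.dvd_map_of_isScalarTower _ K0 x
    obtain ⟨q, hq⟩ := h3
    have h4 : aeval y (minpoly (IntermediateField.adjoin k S) x) = 0 := by
      rw [← aeval_map_algebraMap K0, hq, map_mul, h2, zero_mul]
    exact mem_AC.mpr ⟨_, minpoly.ne_zero hxa.isIntegral, h4⟩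
  have h2 := IntermediateField.splits_of_mem_adjoin (F := K0) (K := E)
    (L := IntermediateField.adjoin K0 (AC k S : Set E)) h1 (hle hγ)
  have hne : minpoly K0 γ ≠ 0 := by
    have h3 : IsIntegral K0 γ := by
      have h4 : IntermediateField.adjoin K0 (AC k S : Set E) ≤ algebraicClosure K0 E := by
        rw [IntermediateField.adjoin_le_iff]
        intro y hy
        exact (mem_algebraicClosure_iff).mpr ((h1 y hy).1.isAlgebraic)
      exact ((mem_algebraicClosure_iff).mp (h4 (hle hγ))).isIntegral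
    exact minpoly.ne_zero h3
  have h3 : ((minpoly K0 γ).map (algebraMap K0 E)).roots = (((minpoly K0 γ).map
      (algebraMap K0 (IntermediateField.adjoin K0 (AC k S : Set E)))).roots).map
      (algebraMap (IntermediateField.adjoin K0 (AC k S : Set E)) E) := by
    rw [← h2.roots_map, Polynomial.map_map]
    rfl
  have h4 : z ∈ ((minpoly K0 γ).map (algebraMap K0 E)).roots := by
    rw [mem_roots (by rw [Ne, Polynomial.map_eq_zero]; exact hne), IsRoot.def,
      eval_map_algebraMap]
    exact hz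
  rw [h3, Multiset.mem_map] at h4
  obtain ⟨y, -, hy⟩ := h4
  rw [← hy]
  exact y.2

/-- the step of `nc_main` -/
theorem step_main [CharZero E] [IsAlgClosed E] {Λ : IntermediateField k E}
    (hΛ : IsAlgClosed Λ) (hΛc : ∀ y : E, IsAlgebraic Λ y → y ∈ Λ)
    {t : E} (ht : Transcendental Λ t) {P Q : Λ[X]} (hc : IsCoprime P Q)
    (hQ : Q ≠ 0) (hmax : max P.natDegree Q.natDegree = 4)
    (hsq : ∀ (a c : Λ) (w : Λ[X]), P - C a * Q ≠ C c * w ^ 2) {ι : Type} {w : ι → E} {i : ι}
    {c : Λ} (hx : (w i - c) * aeval t Q = aeval t P) (hwi : Transcendental Λ (w i))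
    {K0 M0 : IntermediateField k E} (hwK : ∀ j, w j ∈ K0)
    (hrel : RelCl (IntermediateField.adjoin k (Set.range w)) K0)
    {S : Set E} (hS : S ⊆ K0) (hM : M0 ≤ K0 ⊔ AC k S)
    (hB : K0 ⊔ AC k S ≤ IntermediateField.adjoin k ((Λ : Set E) ∪ {t}))
    (hwΛ : ∀ j, j ≠ i → w j ∈ Λ) :
    ∀ γ ∈ M0, γ ∈ AC k (Set.range w) →
      γ ∈ IntermediateField.adjoin k ((AC k (w '' {j | j ≠ i}) : Set E) ∪ {w i}) := by
  intro γ hγM hγA
  have hγa := mem_AC.mp hγA
  have hL1K : IntermediateField.adjoin k (Set.range w) ≤ K0 := by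
    rw [IntermediateField.adjoin_le_iff]
    rintro _ ⟨j, rfl⟩
    exact hwK j
  have hL1 : IntermediateField.adjoin k (Set.range w) ≤
      IntermediateField.adjoin k ((Λ : Set E) ∪ {w i}) := by
    rw [IntermediateField.adjoin_le_iff]
    rintro _ ⟨j, rfl⟩
    rcases eq_or_ne j i with rfl | hj
    · exact IntermediateField.subset_adjoin k _ (Or.inr rfl)
    · exact IntermediateField.subset_adjoin k _ (Or.inl (hwΛ j hj))
  have h1 := lift_core hΛ ht hc hQ hmax hsq hx hL1 hγa (fun z hz =>
    hB (roots_in hS (hM hγM) (minpoly_rel hL1K hrel hγa hz)))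
  have hAΛ : AC k (w '' {j | j ≠ i}) ≤ Λ := by
    intro y hy
    have h2 := mem_AC.mp hy
    have h3 : IntermediateField.adjoin k (w '' {j | j ≠ i}) ≤ Λ := by
      rw [IntermediateField.adjoin_le_iff]
      rintro _ ⟨j, hj, rfl⟩
      exact hwΛ j hj
    exact hΛc y (isAlgebraic_mono h3 h2)
  have hrel2 : RelCl (AC k (w '' {j | j ≠ i})) Λ := by
    intro y _ hya
    exact AC_closed hya
  have h5 := rel_transcendental hAΛ hrel2 hwi
  refine h5 γ h1 ?_
  refine isAlgebraic_mono ?_ hγa
  rw [IntermediateField.adjoin_le_iff]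
  rintro _ ⟨j, rfl⟩
  rcases eq_or_ne j i with rfl | hj
  · exact IntermediateField.subset_adjoin k _ (Or.inr rfl)
  · exact IntermediateField.subset_adjoin k _ (Or.inl (subset_AC _ ⟨j, hj, rfl⟩))

end Pool.Agent.R867.C
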