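import Pool.Agent.R867.C.Gen
import Pool.Agent.R867.C.Roots

/-! The parametrization of a conic through a point over an algebraically closed field. -/

set_option autoImplicit false

namespace Pool.Agent.R867.C

open Polynomial Pool.Agent.TH178.HI Pool.Agent.R867.B

variable {k E : Type} [Field k] [Field E] [Algebra k E]

/-- a quadratic polynomial with coefficients `c i j r` -/
def cq {S : Type} [CommRing S] (c : ℕ → ℕ → ℕ → S) (r : ℕ) (A B : S) : S :=
  c 0 0 r + c 1 0 r * A + c 0 1 r * B + c 2 0 r * A ^ 2 + c 1 1 r * A * B + c 0 2 r * B ^ 2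

/-- the conclusion -/
structure Par (Λ : IntermediateField k E) (P Q : Λ[X]) (t Ta Tb Ti : E) : Prop where
  tr : Transcendental Λ t
  cop : IsCoprime P Q
  hQ : Q ≠ 0
  max4 : max P.natDegree Q.natDegree = 4
  hsq : ∀ (a c : Λ) (w : Λ[X]), P - C a * Q ≠ C c * w ^ 2
  hTi : Ti * aeval t Q = aeval t P
  mTa : Ta ∈ IntermediateField.adjoin k ((Λ : Set E) ∪ {t})
  mTb : Tb ∈ IntermediateField.adjoin k ((Λ : Set E) ∪ {t})
  mTi : Ti ∈ IntermediateField.adjoin k ((Λ : Set E) ∪ {t})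

theorem aev_mem {Λ : IntermediateField k E} (t : E) (p : Λ[X]) :
    aeval t p ∈ IntermediateField.adjoin k ((Λ : Set E) ∪ {t}) := by
  rw [adj_eq]
  exact IntermediateField.algebra_adjoin_le_adjoin _ _ (aeval_mem_adjoin_singleton _ _)

theorem par [CharZero E] {Λ : IntermediateField k E} (hΛc : ∀ y : E, IsAlgebraic Λ y → y ∈ Λ)
    {c : ℕ → ℕ → ℕ → Λ} (hφ : phi c ≠ 0) (hc0 : c 0 0 0 = 0) {Ta Tb Ti : E}
    (h0 : cq (fun i j r => (c i j r : E)) 0 Ta Tb = 0)
    (h1 : cq (fun i j r => (c i j r : E)) 0 Ta Tb + cq (fun i j r => (c i j r : E)) 1 Ta Tb * Ti +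
      cq (fun i j r => (c i j r : E)) 2 Ta Tb * Ti ^ 2 = 0) (hTi : Ti ≠ 0) (hTa : Ta ∉ Λ) :
    Par Λ (-HP c 1) (HP c 2) (Tb / Ta) Ta Tb Ti := by
  haveI : CharZero Λ := charZero_of_injective_algebraMap (algebraMap ℚ Λ).injective
  have hTa0 : Ta ≠ 0 := by
    rintro rfl
    exact hTa (zero_mem _)
  obtain ⟨t, ht⟩ : ∃ t, t = Tb / Ta := ⟨_, rfl⟩
  rw [← ht]
  have hTb : Tb = t * Ta := by rw [ht]; field_simp
  unfold phi at hφ
  have hr1 := left_ne_zero_of_mul hφ
  have hr2 := right_ne_zero_of_mul hφ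
  have hdP : (-HP c 1).natDegree ≤ 4 := by rw [natDegree_neg]; exact HP_deg c 1
  obtain ⟨hcop, hmax⟩ := cop_of_res hdP (HP_deg c 2) hr1
  have hsq := no_sq hdP (HP_deg c 2) hr2
  have hQ : HP c 2 ≠ 0 := by
    intro h
    rw [h] at hcop hmax
    rw [isCoprime_zero_right] at hcop
    rw [natDegree_eq_zero_of_isUnit hcop] at hmax
    simp at hmax
  obtain ⟨l, hl⟩ : ∃ l : E, l = aeval t (lP c) := ⟨_, rfl⟩
  obtain ⟨q, hq⟩ : ∃ q : E, q = aeval t (qP c) := ⟨_, rfl⟩
  have el : l = c 1 0 0 + c 0 1 0 * t := by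
    rw [hl, lP]
    simp only [map_add, map_mul, aeval_C, aeval_X]
    rfl
  have eq' : q = c 2 0 0 + c 1 1 0 * t + c 0 2 0 * t ^ 2 := by
    rw [hq, qP]
    simp only [map_add, map_mul, map_pow, aeval_C, aeval_X]
    rfl
  have hlq : l + q * Ta = 0 := by
    apply mul_left_cancel₀ hTa0
    rw [mul_zero, ← h0, cq, el, eq', hTb, hc0]
    simp only [ZeroMemClass.coe_zero]
    ring
  have hH : ∀ r, aeval t (HP c r) = q ^ 2 * cq (fun i j r => (c i j r : E)) r Ta Tb := by
    intro r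
    have e1 : aeval t (HP c r) = c 0 0 r * q ^ 2 - (c 1 0 r + c 0 1 r * t) * l * q +
        (c 2 0 r + c 1 1 r * t + c 0 2 r * t ^ 2) * l ^ 2 := by
      rw [HP, hl, hq]
      simp only [map_add, map_sub, map_mul, map_pow, aeval_C, aeval_X]
      rfl
    have e2 : l = - (q * Ta) := eq_neg_of_add_eq_zero_left hlq
    rw [e1, e2, cq, hTb]
    ring
  have hq0 : q ≠ 0 := by
    intro h
    obtain ⟨u, v, huv⟩ := hcop
    have h2 := congrArg (aeval t) huv
    rw [map_add, map_mul, map_mul, map_neg, hH, hH, h, map_one] at h2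
    simp at h2
  have htr : Transcendental Λ t := by
    intro hta
    have htΛ := hΛc t hta
    apply hTa
    have e2 : Ta = - l / q := by
      field_simp
      linear_combination hlq
    rw [e2]
    refine div_mem (neg_mem ?_) ?_
    · rw [el]
      exact add_mem (c 1 0 0).2 (mul_mem (c 0 1 0).2 htΛ)
    · rw [eq']
      exact add_mem (add_mem (c 2 0 0).2 (mul_mem (c 1 1 0).2 htΛ))
        (mul_mem (c 0 2 0).2 (pow_mem htΛ 2))
  have hlin : cq (fun i j r => (c i j r : E)) 1 Ta Tb +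
      cq (fun i j r => (c i j r : E)) 2 Ta Tb * Ti = 0 := by
    apply mul_left_cancel₀ hTi
    rw [mul_zero, ← h1, h0]
    ring
  have hTi' : Ti * aeval t (HP c 2) = aeval t (-HP c 1) := by
    rw [map_neg, hH, hH]
    linear_combination q ^ 2 * hlin
  have htm : t ∈ IntermediateField.adjoin k ((Λ : Set E) ∪ {t}) :=
    IntermediateField.subset_adjoin k _ (Or.inr rfl)
  have hmTa : Ta ∈ IntermediateField.adjoin k ((Λ : Set E) ∪ {t}) := by
    have e2 : Ta = - l / q := by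
      field_simp
      linear_combination hlq
    rw [e2, hl, hq]
    exact div_mem (neg_mem (aev_mem _ _)) (aev_mem _ _)
  have hQt : aeval t (HP c 2) ≠ 0 := fun h => hQ (transcendental_iff.mp htr _ h)
  refine ⟨htr, hcop, hQ, hmax, hsq, hTi', hmTa, by rw [hTb]; exact mul_mem htm hmTa, ?_⟩
  have e3 : Ti = aeval t (-HP c 1) / aeval t (HP c 2) := by
    rw [← hTi', mul_div_cancel_right₀ _ hQt]
  rw [e3]
  exact div_mem (aev_mem _ _) (aev_mem _ _)

end Pool.Agent.R867.C
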