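import Mathlib

/-! Square roots of polynomials in a rational function `n / d`. -/

set_option autoImplicit false

namespace Pool.Agent.R867.C

open Polynomial

variable {Λ : Type} [Field Λ]

theorem cop {n d : Λ[X]} (hc : IsCoprime n d) {a b : Λ} (hab : a ≠ b) :
    IsCoprime (n - C a * d) (n - C b * d) := by
  obtain ⟨u, v, h⟩ := hc
  have hba : (b - a) ≠ 0 := sub_ne_zero.mpr (Ne.symm hab)
  have h1 : (C (b - a)⁻¹ : Λ[X]) * (C b - C a) = 1 := by
    rw [← C_sub, ← C_mul, inv_mul_cancel₀ hba, C_1]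
  refine ⟨C (b - a)⁻¹ * (C b * u + v), - (C (b - a)⁻¹ * (C a * u + v)), ?_⟩
  linear_combination (n * u + d * v) * h1 + h

theorem cop_d {n d : Λ[X]} (hc : IsCoprime n d) (a : Λ) : IsCoprime (n - C a * d) d := by
  obtain ⟨u, v, h⟩ := hc
  refine ⟨u, v + C a * u, ?_⟩
  linear_combination h

/-- the function `n / d` -/
noncomputable def qf (n d : Λ[X]) : RatFunc Λ :=
  algebraMap Λ[X] (RatFunc Λ) n / algebraMap Λ[X] (RatFunc Λ) d

theorem am_ne {d : Λ[X]} (hd : d ≠ 0) : algebraMap Λ[X] (RatFunc Λ) d ≠ 0 := by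
  intro h
  exact hd ((map_eq_zero_iff _ (RatFunc.algebraMap_injective Λ)).mp h)

theorem qf_sub {n d : Λ[X]} (hd : d ≠ 0) (b : Λ) :
    (qf n d - algebraMap Λ (RatFunc Λ) b) * algebraMap Λ[X] (RatFunc Λ) d =
      algebraMap Λ[X] (RatFunc Λ) (n - C b * d) := by
  have h := am_ne hd
  rw [qf, sub_mul, div_mul_cancel₀ _ h, map_sub, map_mul]
  rfl

theorem hom_ex [IsAlgClosed Λ] {n d : Λ[X]} (hc : IsCoprime n d) (hd : d ≠ 0) (a : Λ) (N : ℕ) :
    ∀ g : Λ[X], g.natDegree = N → g.eval a ≠ 0 → ∃ (D : ℕ) (H : Λ[X]),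
      aeval (qf n d) g * algebraMap Λ[X] (RatFunc Λ) d ^ D = algebraMap Λ[X] (RatFunc Λ) H ∧
      IsCoprime (n - C a * d) H := by
  induction N with
  | zero =>
    intro g hg hga
    obtain ⟨c, rfl⟩ := natDegree_eq_zero.mp hg
    refine ⟨0, C c, by simp, ?_⟩
    rw [eval_C] at hga
    exact ⟨0, C c⁻¹, by rw [zero_mul, zero_add, ← C_mul, inv_mul_cancel₀ hga, C_1]⟩
  | succ N ih =>
    intro g hg hga
    have hdeg : g.degree ≠ 0 := by
      intro h
      rw [natDegree_eq_zero_iff_degree_le_zero.mpr h.le] at hg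
      omega
    obtain ⟨b, hb⟩ := IsAlgClosed.exists_root g hdeg
    obtain ⟨g₂, rfl⟩ := dvd_iff_isRoot.mpr hb
    have hg0 : (X - C b) * g₂ ≠ 0 := by
      intro h
      rw [h] at hg
      simp at hg
    have hg2 : g₂ ≠ 0 := right_ne_zero_of_mul hg0
    have hdeg2 : g₂.natDegree = N := by
      rw [natDegree_mul (X_sub_C_ne_zero b) hg2, natDegree_X_sub_C] at hg
      omega
    rw [eval_mul] at hga
    obtain ⟨D, H, h1, h2⟩ := ih g₂ hdeg2 (right_ne_zero_of_mul hga)
    have hab : a ≠ b := by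
      rintro rfl
      simp at hga
    refine ⟨D + 1, (n - C b * d) * H, ?_, (cop hc hab).mul_right h2⟩
    rw [map_mul, map_mul (algebraMap Λ[X] (RatFunc Λ)), ← qf_sub hd b, ← h1, map_sub, aeval_X,
      aeval_C, pow_succ]
    ring

theorem kum_sq [IsAlgClosed Λ] {n d : Λ[X]} (hc : IsCoprime n d) (hd : d ≠ 0)
    (hn : ∀ a : Λ, n - C a * d ≠ 0) (S : Subfield (RatFunc Λ)) (hf : qf n d ∈ S)
    (hS : ∀ a : Λ, algebraMap Λ (RatFunc Λ) a ∈ S) (N : ℕ) :
    ∀ (g : Λ[X]) (s : RatFunc Λ), g.natDegree = N → g ≠ 0 → s ^ 2 = aeval (qf n d) g → s ∉ S →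
      ∃ (a c : Λ) (w : Λ[X]), n - C a * d = C c * w ^ 2 := by
  induction N using Nat.strong_induction_on with
  | _ N ih =>
    intro g s hg hg0 hs hsS
    rcases Nat.eq_zero_or_pos N with hN | hN
    · exfalso
      rw [hN] at hg
      obtain ⟨c, rfl⟩ := natDegree_eq_zero.mp hg
      obtain ⟨e, he⟩ := IsAlgClosed.exists_pow_nat_eq c (n := 2) (by norm_num)
      rw [aeval_C, ← he, map_pow] at hs
      rcases sq_eq_sq_iff_eq_or_eq_neg.mp hs with h | h
      · exact hsS (h ▸ hS e)
      · exact hsS (h ▸ neg_mem (hS e))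
    · have hdeg : g.degree ≠ 0 := by
        intro h
        rw [natDegree_eq_zero_iff_degree_le_zero.mpr h.le] at hg
        omega
      obtain ⟨a, ha⟩ := IsAlgClosed.exists_root g hdeg
      obtain ⟨g₁, h1, h2⟩ := exists_eq_pow_rootMultiplicity_mul_and_not_dvd g hg0 a
      set m := g.rootMultiplicity a with hm
      have hm1 : 0 < m := (rootMultiplicity_pos hg0).mpr ha
      have hg1 : g₁ ≠ 0 := by
        rintro rfl
        exact h2 (dvd_zero _)
      have hdeg1 : g₁.natDegree < N := by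
        have h3 : g.natDegree = m + g₁.natDegree := by
          conv_lhs => rw [h1]
          rw [natDegree_mul (pow_ne_zero _ (X_sub_C_ne_zero a)) hg1, natDegree_pow,
            natDegree_X_sub_C, mul_one]
        omega
      have hfa : qf n d - algebraMap Λ (RatFunc Λ) a ≠ 0 := by
        intro h
        have h3 := qf_sub (n := n) hd a
        rw [h, zero_mul] at h3
        exact am_ne (hn a) h3.symm
      have hs' : s ^ 2 = (qf n d - algebraMap Λ (RatFunc Λ) a) ^ m * aeval (qf n d) g₁ := by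
        rw [hs]
        conv_lhs => rw [h1]
        rw [map_mul, map_pow, map_sub, aeval_X, aeval_C]
      rcases Nat.even_or_odd' m with ⟨j, hj | hj⟩
      · refine ih _ hdeg1 g₁ (s / (qf n d - algebraMap Λ (RatFunc Λ) a) ^ j) rfl hg1 ?_ ?_
        · rw [div_pow, hs', hj, pow_mul', ← pow_mul, mul_comm j 2, pow_mul']
          field_simp
        · intro h
          apply hsS
          have h3 := mul_mem h (pow_mem (sub_mem hf (hS a)) j)
          rwa [div_mul_cancel₀ _ (pow_ne_zero _ hfa)] at h3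
      · have hga : g₁.eval a ≠ 0 := fun h => h2 (dvd_iff_isRoot.mpr h)
        obtain ⟨D, H, h3, h4⟩ := hom_ex hc hd a _ g₁ rfl hga
        obtain ⟨w, hw⟩ : ∃ w : Λ[X], algebraMap Λ[X] (RatFunc Λ) w =
            s * algebraMap Λ[X] (RatFunc Λ) d ^ (m + D) := by
          have hint : IsIntegral Λ[X] (s * algebraMap Λ[X] (RatFunc Λ) d ^ (m + D)) := by
            refine IsIntegral.of_pow (n := 2) (by norm_num) ?_
            have h5 : (s * algebraMap Λ[X] (RatFunc Λ) d ^ (m + D)) ^ 2 =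
                algebraMap Λ[X] (RatFunc Λ) ((n - C a * d) ^ m * (H * d ^ (m + D))) := by
              rw [map_mul, map_mul, map_pow, map_pow, ← qf_sub hd a, ← h3, mul_pow s, hs',
                mul_pow (qf n d - algebraMap Λ (RatFunc Λ) a)]
              ring
            rw [h5]
            exact isIntegral_algebraMap
          exact IsIntegrallyClosed.isIntegral_iff.mp hint
        have h5 : (n - C a * d) ^ m * (H * d ^ (m + D)) = w ^ 2 := by
          apply RatFunc.algebraMap_injective Λ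
          rw [map_pow _ w, hw, map_mul, map_mul, map_pow, map_pow, ← qf_sub hd a, ← h3,
            mul_pow s, hs', mul_pow (qf n d - algebraMap Λ (RatFunc Λ) a)]
          ring
        have h6 : IsCoprime ((n - C a * d) ^ m) (H * d ^ (m + D)) :=
          (h4.mul_right ((cop_d hc a).pow_right)).pow_left
        obtain ⟨e, he⟩ := exists_associated_pow_of_mul_eq_pow' h6 h5
        obtain ⟨u, hu⟩ := he
        obtain ⟨c, hc', hcu⟩ := Polynomial.isUnit_iff.mp u.isUnit
        rw [← hcu] at hu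
        set q := n - C a * d with hq
        have hq0 : q ≠ 0 := hn a
        have h7 : (q ^ j) ^ 2 ∣ e ^ 2 := by
          have h8 : (q ^ j) ^ 2 ∣ e ^ 2 * C c := by
            rw [hu, hj]
            exact ⟨q, by ring⟩
          exact (isUnit_C.mpr hc').dvd_mul_right.mp h8
        have h8 : q ^ j ∣ e := (IsIntegrallyClosed.pow_dvd_pow_iff (by norm_num)).mp h7
        obtain ⟨v, rfl⟩ := h8
        refine ⟨a, c, v, ?_⟩
        have h9 : (q ^ j) ^ 2 * q = (q ^ j) ^ 2 * (C c * v ^ 2) := by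
          have h10 : q ^ m = (q ^ j) ^ 2 * q := by rw [hj]; ring
          rw [← h10, ← hu]
          ring
        exact mul_left_cancel₀ (pow_ne_zero _ (pow_ne_zero _ hq0)) h9

end Pool.Agent.R867.C
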