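import Pool.Agent.R867.C.Rc

/-! A cover which is constant in each of the directions is trivial. -/

set_option autoImplicit false

namespace Pool.Agent.R867.C

open Polynomial Pool.Agent.TH178.HI Pool.Agent.R867.B

variable {k E : Type} [Field k] [Field E] [Algebra k E]

theorem AC_mono {S T : Set E} (h : S ⊆ T) : AC k S ≤ AC k T := by
  intro x hx
  rw [mem_AC] at hx ⊢
  exact isAlgebraic_mono (IntermediateField.adjoin.mono k _ _ h) hx

theorem AC_le {S : Set E} {T : Set E} (h : ∀ x ∈ S, x ∈ AC k T) : AC k S ≤ AC k T := by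
  intro x hx
  rw [mem_AC] at hx
  exact AC_closed (isAlgebraic_mono (IntermediateField.adjoin_le_iff.mpr h) hx)

theorem nc_main [CharZero E] {ι : Type} [Finite ι] [DecidableEq ι] {w : ι → E}
    (hw : AlgebraicIndependent k w) {K0 M0 : IntermediateField k E} (hKM : K0 ≤ M0)
    (hwK : ∀ i, w i ∈ K0) (h0 : M0 ≤ K0 ⊔ AC k (Set.range w))
    (hN : ∀ i, ∀ γ ∈ M0, γ ∈ AC k (Set.range w) →
      γ ∈ IntermediateField.adjoin k ((AC k (w '' {j | j ≠ i}) : Set E) ∪ {w i}))
    (hcl : RelCl ⊥ M0) : M0 ≤ K0 := by
  classical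
  haveI := Fintype.ofFinite ι
  have key : ∀ J : Finset ι, M0 ≤ K0 ⊔ AC k (w '' {j | j ∉ J}) := by
    intro J
    induction J using Finset.induction_on with
    | empty =>
      have h1 : w '' {j | j ∉ (∅ : Finset ι)} = Set.range w := by simp
      rw [h1]
      exact h0
    | insert i J hi ih =>
      have h1 := rc hKM (by rintro _ ⟨j, -, rfl⟩; exact hwK j) ih
      refine h1.trans (sup_le le_sup_left ?_)
      intro γ hγ
      rw [IntermediateField.mem_inf] at hγ
      have h2 : γ ∈ AC k (Set.range w) := AC_mono (Set.image_subset_range _ _) hγ.2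
      have h3 := hN i γ hγ.1 h2
      obtain ⟨A, hA⟩ : ∃ A, A = AC k (w '' {j | j ∉ insert i J}) := ⟨_, rfl⟩
      rw [← hA]
      have hAB : A ≤ AC k (w '' {j | j ≠ i}) := by
        rw [hA]
        refine AC_mono (Set.image_mono ?_)
        intro j hj
        simp only [Finset.mem_insert, not_or, Set.mem_setOf_eq] at hj
        exact hj.1
      have htr : Transcendental (AC k (w '' {j | j ≠ i})) (w i) :=
        transcendental_of_le hw (I := {j | j ≠ i}) (by simp) le_rfl
      have hrel : RelCl A (AC k (w '' {j | j ≠ i})) := by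
        intro y _ hya
        rw [hA] at hya ⊢
        exact AC_closed hya
      have h4 := rel_transcendental hAB hrel htr
      have h5 : γ ∈ IntermediateField.adjoin k ((A : Set E) ∪ {w i}) := by
        refine h4 γ h3 ?_
        have h6 := mem_AC.mp hγ.2
        refine isAlgebraic_mono ?_ h6
        rw [IntermediateField.adjoin_le_iff]
        rintro _ ⟨j, hj, rfl⟩
        rcases eq_or_ne j i with rfl | hji
        · exact IntermediateField.subset_adjoin k _ (Or.inr rfl)
        · refine IntermediateField.subset_adjoin k _ (Or.inl ?_)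
          rw [hA]
          refine subset_AC _ ⟨j, ?_, rfl⟩
          simp only [Finset.mem_insert, not_or, Set.mem_setOf_eq]
          exact ⟨hji, hj⟩
      refine (IntermediateField.adjoin_le_iff.mpr ?_) h5
      rintro y (hy | hy)
      · exact (le_sup_right : A ≤ K0 ⊔ A) hy
      · rw [Set.mem_singleton_iff] at hy
        rw [hy]
        exact (le_sup_left : K0 ≤ K0 ⊔ A) (hwK i)
  have h1 := rc hKM (by rintro _ ⟨j, -, rfl⟩; exact hwK j) (key Finset.univ)
  refine h1.trans (sup_le le_rfl ?_)
  intro γ hγ
  rw [IntermediateField.mem_inf] at hγ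
  have h2 : w '' {j | j ∉ (Finset.univ : Finset ι)} = ∅ := by simp
  rw [h2, mem_AC, IntermediateField.adjoin_empty] at hγ
  exact (bot_le : (⊥ : IntermediateField k E) ≤ K0) (hcl γ hγ.1 hγ.2)

end Pool.Agent.R867.C
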