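import Pool.Agent.R867.C.Tau

/-! The parametrized conics through a general point. -/

set_option autoImplicit false

namespace Pool.Agent.R867.C

open MvPolynomial Pool.Agent.TH178.HI Pool.Agent.R867.B Pool.Agent.R867.H Pool.Agent.R867.Mov

variable {N : ℕ} {k : Type} [Field k] {E : Type} [Field E] [Algebra k E]

theorem ne_upd {y : Fin N → E} (hy : AlgebraicIndependent k y) (b : Fin N)
    {G : MvPolynomial (Fin N) k} (hG : eval 0 G ≠ 0) : aeval (Function.update y b 0) G ≠ 0 := by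
  classical
  obtain ⟨sb, hsb⟩ : ∃ sb : MvPolynomial (Fin N) k →ₐ[k] MvPolynomial (Fin N) k,
    sb = aeval (fun l => if l = b then 0 else X l) := ⟨_, rfl⟩
  have h5 : eval 0 (sb G) = eval 0 G := by
    have h6 : ((aeval (0 : Fin N → k)).comp sb : MvPolynomial (Fin N) k →ₐ[k] k) =
        aeval (0 : Fin N → k) := by
      apply MvPolynomial.algHom_ext
      intro l
      rw [AlgHom.comp_apply, hsb, aeval_X, aeval_X]
      split_ifs <;> simp
    exact congrArg (fun h : MvPolynomial (Fin N) k →ₐ[k] k => h G) h6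
  have h6 : (aeval y).comp sb = aeval (Function.update y b 0) := by
    apply MvPolynomial.algHom_ext
    intro l
    rw [AlgHom.comp_apply, hsb, aeval_X, aeval_X, Function.update_apply]
    split_ifs <;> simp
  have h7 : aeval y (sb G) = aeval (Function.update y b 0) G :=
    congrArg (fun h : MvPolynomial (Fin N) k →ₐ[k] E => h G) h6
  rw [← h7]
  intro h8
  have h9 : sb G = 0 := hy (h8.trans (map_zero _).symm)
  rw [h9, map_zero] at h5
  exact hG h5.symm

variable {K : Type} [Field K] [Algebra k K]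

theorem exists_par [CharZero k] [IsAlgClosed E] [CharZero E] {f : MvPolynomial (Fin N) k}
    {a b i : Fin N} (hc : Cnd f a b i) {ξ : Fin N → K} (hξ : GP f ξ) {τ : K ≃ₐ[k] K}
    (hτ : ∀ l, l ≠ i → τ (ξ l) = ξ l) (hτi : τ (ξ i) ≠ ξ i) (κ : K →ₐ[k] E) {u : E}
    (hu : u ∉ cl k (Set.range κ)) : ∃ (Y : Set E) (P Q : Polynomial (AC k Y)) (t Ta Tb : E),
      Par (AC k Y) P Q t Ta Tb (κ (ξ i) - κ (τ (ξ i))) ∧ κ (τ (ξ i)) ∈ AC k Y ∧
      (∀ l, l ≠ a → l ≠ b → l ≠ i → κ (ξ l) ∈ AC k Y) ∧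
      (∀ l, κ (ξ l) ∈ IntermediateField.adjoin k ((AC k Y : Set E) ∪ {t})) ∧
      Transcendental (AC k Y) (κ (ξ i)) := by
  classical
  have hf0 : f ≠ 0 := by
    rintro rfl
    exact hc.c1 (coeff_zero _)
  have hdb : degreeOf b f ≠ 0 := deg_ne hc.c02 (by rw [ex_b hc.hab hc.hbi]; norm_num)
  have hz : aeval ξ f = 0 := (hξ.zero_iff f).mpr dvd_rfl
  -- independence
  obtain ⟨v, hv⟩ : ∃ v : Fin N → E, ∀ l, v l = if l = b then u else κ (τ (ξ l)) :=
    ⟨_, fun _ => rfl⟩
  have hvi : AlgebraicIndependent k v := by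
    have h1 := indep_of hf0 hdb (fun P => (hξ.zero_iff P).mp)
    have h2 : AlgebraicIndependent k (fun l : {l : Fin N // l ≠ b} => v l) := by
      have h3 := h1.map' (f := κ.comp τ.toAlgHom) (κ.comp τ.toAlgHom).toRingHom.injective
      have h4 : (fun l : {l : Fin N // l ≠ b} => v l) =
          (κ.comp τ.toAlgHom) ∘ fun l : {l : Fin N // l ≠ b} => ξ l := by
        funext l
        rw [hv, if_neg l.2]
        rfl
      rw [h4]
      exact h3
    have h3 : AlgebraicIndepOn k v {l | l ≠ b} := h2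
    have h4 : v b ∉ cl k (v '' {l | l ≠ b}) := by
      intro h5
      rw [hv, if_pos rfl] at h5
      apply hu
      refine cl_mono ?_ h5
      rintro _ ⟨l, hl, rfl⟩
      rw [hv, if_neg hl]
      exact ⟨_, rfl⟩
    have h5 := h3.insert h4
    have h6 : insert b {l : Fin N | l ≠ b} = Set.univ := by
      ext l
      simp only [Set.mem_insert_iff, Set.mem_setOf_eq, Set.mem_univ, iff_true]
      exact em _
    rw [h6] at h5
    have h7 : AlgebraicIndependent k (fun x : (Set.univ : Set (Fin N)) => v x) := h5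
    exact h7.comp (fun l : Fin N => (⟨l, trivial⟩ : (Set.univ : Set (Fin N))))
      (fun _ _ h => congrArg Subtype.val h)
  obtain ⟨y, hy⟩ : ∃ y : Fin N → E, y = v ∘ (Equiv.swap a b) := ⟨_, rfl⟩
  have hyi : AlgebraicIndependent k y := by
    rw [hy]
    exact hvi.comp _ (Equiv.swap a b).injective
  have hya : y a = u := by
    rw [hy, Function.comp_apply, Equiv.swap_apply_left, hv, if_pos rfl]
  have hyb : y b = κ (ξ a) := by
    rw [hy, Function.comp_apply, Equiv.swap_apply_right, hv, if_neg hc.hab, hτ a hc.hai]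
  have hyl : ∀ l, l ≠ a → l ≠ b → y l = κ (τ (ξ l)) := by
    intro l h1 h2
    rw [hy, Function.comp_apply, Equiv.swap_apply_of_ne_of_ne h1 h2, hv, if_neg h2]
  obtain ⟨Y, hY⟩ : ∃ Y, Y = y '' {l | l ≠ b} := ⟨_, rfl⟩
  have hyY : ∀ l, l ≠ b → y l ∈ AC k Y := by
    intro l hl
    rw [hY]
    exact subset_AC _ ⟨l, hl, rfl⟩
  have hcl : ∀ z : E, IsAlgebraic (AC k Y) z → z ∈ AC k Y := fun z hz => AC_closed hz
  -- the second coordinate
  obtain ⟨y0, hy0⟩ : ∃ y0 : Fin N → E, y0 = Function.update y b 0 := ⟨_, rfl⟩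
  have hy0m : ∀ l, y0 l ∈ AC k Y := by
    intro l
    rw [hy0, Function.update_apply]
    split_ifs with h
    · exact zero_mem _
    · exact hyY l h
  obtain ⟨e, he⟩ : ∃ e : ℕ → E, ∀ r, e r = aeval y0 (cX f a b i 0 r 0) := ⟨_, fun _ => rfl⟩
  have he2 : e 2 ≠ 0 := by
    rw [he, hy0]
    exact ne_upd hyi b (by rw [cX_zero]; exact hc.c02)
  have hem : ∀ r, e r ∈ AC k Y := by
    intro r
    rw [he]
    exact Pool.Agent.R867.B.aeval_mem' hy0m _
  have hexp : ∀ s : E, aeval (fun l => y0 l + if l = b then s else 0) f =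
      e 0 + e 1 * s + e 2 * s ^ 2 := by
    intro s
    rw [expand hc.hab hc.hai hc.hbi hc.sup y0 (fun l => if l = b then s else 0)
      (fun l _ h _ => if_neg h)]
    simp only [if_neg hc.hab, if_neg (Ne.symm hc.hbi), if_true, cq, he]
    ring
  obtain ⟨η, hη⟩ : ∃ η : E, e 0 + e 1 * η + e 2 * η ^ 2 = 0 := by
    obtain ⟨δ, hδ⟩ := IsAlgClosed.exists_pow_nat_eq (e 1 ^ 2 - 4 * e 2 * e 0) (n := 2)
      (by norm_num)
    refine ⟨(δ - e 1) / (2 * e 2), ?_⟩
    have h2 : (2 : E) ≠ 0 := two_ne_zero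
    field_simp
    linear_combination hδ
  obtain ⟨x', hx'⟩ : ∃ x' : Fin N → E, ∀ l, x' l = if l = b then η else y l := ⟨_, fun _ => rfl⟩
  have hx'z : aeval x' f = 0 := by
    have h1 : x' = fun l => y0 l + if l = b then η else 0 := by
      funext l
      rw [hx', hy0, Function.update_apply]
      split_ifs <;> simp
    rw [h1, hexp, hη]
  have hηm : η ∈ AC k Y := by
    apply hcl
    refine ⟨Polynomial.C ⟨e 0, hem 0⟩ + Polynomial.C ⟨e 1, hem 1⟩ * Polynomial.X +
      Polynomial.C ⟨e 2, hem 2⟩ * Polynomial.X ^ 2, ?_, ?_⟩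
    · intro h
      have h1 := congrArg (fun p => p.coeff 2) h
      simp [Polynomial.coeff_X, Polynomial.coeff_C] at h1
      exact he2 (congrArg Subtype.val h1)
    · simp only [map_add, map_mul, map_pow, Polynomial.aeval_C, Polynomial.aeval_X]
      exact hη
  have hx'm : ∀ l, x' l ∈ AC k Y := by
    intro l
    rw [hx']
    split_ifs with h
    · exact hηm
    · exact hyY l h
  have hG : ∀ P : MvPolynomial (Fin N) k, eval 0 P ≠ 0 → aeval x' P ≠ 0 := by
    intro P h1 h2
    apply h1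
    have hind : AlgebraicIndependent k (fun l : {l : Fin N // l ≠ b} => x' l) := by
      have h3 : (fun l : {l : Fin N // l ≠ b} => x' l) = fun l : {l : Fin N // l ≠ b} => y l := by
        funext l
        rw [hx', if_neg l.2]
      rw [h3]
      exact hyi.comp (fun l : {l : Fin N // l ≠ b} => (l : Fin N)) Subtype.val_injective
    exact eval_dvd hc.f0 ((generic_iff hξ hx'z hdb hf0 hind P).mp h2)
  -- the coefficients
  obtain ⟨xL, hxL⟩ : ∃ xL : Fin N → AC k Y, ∀ l, (xL l : E) = x' l :=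
    ⟨fun l => ⟨x' l, hx'm l⟩, fun _ => rfl⟩
  have hco : ∀ P : MvPolynomial (Fin N) k, ((aeval xL P : AC k Y) : E) = aeval x' P := by
    intro P
    have h6 : (IsScalarTower.toAlgHom k (AC k Y) E).comp (aeval xL) = aeval x' := by
      apply MvPolynomial.algHom_ext
      intro l
      rw [AlgHom.comp_apply, aeval_X, aeval_X]
      exact hxL l
    exact congrArg (fun h : MvPolynomial (Fin N) k →ₐ[k] E => h P) h6
  obtain ⟨c, hcc⟩ : ∃ c : ℕ → ℕ → ℕ → AC k Y, c = fun p q r => aeval xL (cX f a b i p q r) :=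
    ⟨_, rfl⟩
  have hcE : (fun p q r => (c p q r : E)) = fun p q r => aeval x' (cX f a b i p q r) := by
    funext p q r
    rw [hcc]
    exact hco _
  have hφ : phi c ≠ 0 := by
    intro h
    have h1 := phi_map (aeval xL : MvPolynomial (Fin N) k →ₐ[k] AC k Y).toRingHom (cX f a b i)
    have h2 : aeval xL (phi (cX f a b i)) = 0 := by
      refine Eq.trans h1 ?_
      rw [← h, hcc]
      rfl
    have h3 : aeval x' (phi (cX f a b i)) ≠ 0 := by
      apply hG
      rw [phi_map (eval (0 : Fin N → k))]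
      simp only [cX_zero]
      exact hc.cp
    apply h3
    rw [← hco, h2]
    rfl
  obtain ⟨T1, hT1⟩ : ∃ T1 : Fin N → E, ∀ l, T1 l = if l = a then κ (ξ a) - u else
    if l = b then κ (ξ b) - η else if l = i then κ (ξ i) - κ (τ (ξ i)) else 0 := ⟨_, fun _ => rfl⟩
  obtain ⟨T0, hT0⟩ : ∃ T0 : Fin N → E, ∀ l, T0 l = if l = a then κ (ξ a) - u else
    if l = b then κ (ξ b) - η else 0 := ⟨_, fun _ => rfl⟩
  have hba : b ≠ a := Ne.symm hc.hab
  have hia : i ≠ a := Ne.symm hc.hai
  have hib : i ≠ b := Ne.symm hc.hbi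
  have p1 : (fun l => x' l + T1 l) = fun l => κ (ξ l) := by
    funext l
    rw [hx', hT1]
    by_cases h1 : l = a
    · rw [h1, if_neg hc.hab, if_pos rfl, hya]
      ring
    · by_cases h2 : l = b
      · rw [h2, if_pos rfl, if_neg hba, if_pos rfl]
        ring
      · rw [if_neg h2, if_neg h1, if_neg h2, hyl l h1 h2]
        by_cases h3 : l = i
        · rw [h3, if_pos rfl]
          ring
        · rw [if_neg h3, hτ l h3, add_zero]
  have p0 : (fun l => x' l + T0 l) = fun l => κ (τ (ξ l)) := by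
    funext l
    rw [hx', hT0]
    by_cases h1 : l = a
    · rw [h1, if_neg hc.hab, if_pos rfl, hya, hτ a hc.hai]
      ring
    · by_cases h2 : l = b
      · rw [h2, if_pos rfl, if_neg hba, if_pos rfl, hτ b hc.hbi]
        ring
      · rw [if_neg h2, if_neg h1, if_neg h2, hyl l h1 h2, add_zero]
  have z1 : aeval (fun l => κ (ξ l)) f = 0 := by
    have h2 : κ (aeval ξ f) = aeval (fun l => κ (ξ l)) f := by
      rw [← AlgHom.comp_apply]
      congr 1
      apply MvPolynomial.algHom_ext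
      intro l
      simp
    rw [← h2, hz, map_zero]
  have z0 : aeval (fun l => κ (τ (ξ l))) f = 0 := by
    have h2 : κ (τ (aeval ξ f)) = aeval (fun l => κ (τ (ξ l))) f := by
      have h3 : (κ.comp τ.toAlgHom).comp (aeval ξ) = aeval (fun l => κ (τ (ξ l))) := by
        apply MvPolynomial.algHom_ext
        intro l
        simp
      exact congrArg (fun h : MvPolynomial (Fin N) k →ₐ[k] E => h f) h3
    rw [← h2, hz, map_zero, map_zero]
  have q1 := expand hc.hab hc.hai hc.hbi hc.sup x' T1 (fun l h1 h2 h3 => by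
    rw [hT1, if_neg h1, if_neg h2, if_neg h3])
  have q0 := expand hc.hab hc.hai hc.hbi hc.sup x' T0 (fun l h1 h2 h3 => by
    rw [hT0, if_neg h1, if_neg h2])
  rw [p1, z1, ← hcE] at q1
  rw [p0, z0, ← hcE] at q0
  have t1a : T1 a = κ (ξ a) - u := by rw [hT1, if_pos rfl]
  have t1b : T1 b = κ (ξ b) - η := by rw [hT1, if_neg hba, if_pos rfl]
  have t1i : T1 i = κ (ξ i) - κ (τ (ξ i)) := by rw [hT1, if_neg hia, if_neg hib, if_pos rfl]
  have t0a : T0 a = κ (ξ a) - u := by rw [hT0, if_pos rfl]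
  have t0b : T0 b = κ (ξ b) - η := by rw [hT0, if_neg hba, if_pos rfl]
  have t0i : T0 i = 0 := by rw [hT0, if_neg hia, if_neg hib]
  rw [t1a, t1b, t1i] at q1
  rw [t0a, t0b, t0i] at q0
  have hc0 : c 0 0 0 = 0 := by
    have h1 := expand hc.hab hc.hai hc.hbi hc.sup x' (fun _ => 0) (fun l h1 h2 h3 => rfl)
    simp only [add_zero, hx'z, cq] at h1
    have h2 : aeval x' (cX f a b i 0 0 0) = 0 := by
      linear_combination -h1
    have h3 : (c 0 0 0 : E) = 0 := by
      have := congrFun (congrFun (congrFun hcE 0) 0) 0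
      rw [this, h2]
    exact_mod_cast h3
  have hTi : κ (ξ i) - κ (τ (ξ i)) ≠ 0 := by
    intro h
    apply hτi
    apply κ.toRingHom.injective
    exact (sub_eq_zero.mp h).symm
  have huΛ : u ∈ AC k Y := by
    rw [← hya]
    exact hyY a hc.hab
  have hTa : κ (ξ a) - u ∉ AC k Y := by
    intro h
    have h1 : κ (ξ a) ∈ AC k Y := by
      have := add_mem h huΛ
      rwa [sub_add_cancel] at this
    rw [← hyb] at h1
    have h2 : Transcendental (AC k Y) (y b) :=
      transcendental_of_le hyi (I := {l | l ≠ b}) (by simp) (by rw [hY])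
    exact h2 (isAlgebraic_algebraMap (⟨y b, h1⟩ : AC k Y))
  have hpar := par hcl hφ hc0 (Ta := κ (ξ a) - u) (Tb := κ (ξ b) - η)
    (Ti := κ (ξ i) - κ (τ (ξ i))) (by linear_combination -q0) q1.symm hTi hTa
  have hτm : κ (τ (ξ i)) ∈ AC k Y := by
    rw [← hyl i hia hib]
    exact hyY i hib
  have hsub : AC k Y ≤ IntermediateField.adjoin k ((AC k Y : Set E) ∪
      {(κ (ξ b) - η) / (κ (ξ a) - u)}) := fun z hz =>
    IntermediateField.subset_adjoin k _ (Or.inl hz)
  have hlm : ∀ l, l ≠ a → l ≠ b → l ≠ i → κ (ξ l) ∈ AC k Y := by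
    intro l h1 h2 h3
    have h4 := hyY l h2
    rw [hyl l h1 h2, hτ l h3] at h4
    exact h4
  refine ⟨Y, _, _, _, _, _, hpar, hτm, hlm, ?_, ?_⟩
  · intro l
    by_cases h1 : l = a
    · rw [h1]
      have := add_mem hpar.mTa (hsub huΛ)
      rwa [sub_add_cancel] at this
    · by_cases h2 : l = b
      · rw [h2]
        have := add_mem hpar.mTb (hsub hηm)
        rwa [sub_add_cancel] at this
      · by_cases h3 : l = i
        · rw [h3]
          have := add_mem hpar.mTi (hsub hτm)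
          rwa [sub_add_cancel] at this
        · exact hsub (hlm l h1 h2 h3)
  · intro halg
    have h1 : κ (ξ i) ∈ AC k Y := hcl _ halg
    have h2 : κ (ξ i) - κ (τ (ξ i)) ∈ AC k Y := sub_mem h1 hτm
    apply hpar.hsq ⟨_, h2⟩ 0 0
    have h3 := hpar.hTi
    have h4 : Polynomial.aeval ((κ (ξ b) - η) / (κ (ξ a) - u)) (-HP c 1 -
        Polynomial.C (⟨_, h2⟩ : AC k Y) * HP c 2) = 0 := by
      rw [map_sub, map_mul, Polynomial.aeval_C, ← h3]
      exact sub_self _
    have h5 := transcendental_iff.mp hpar.tr _ h4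
    rw [h5]
    simp

end Pool.Agent.R867.C
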