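import Pool.Agent.R867.C.Fam

/-! Random hypersurfaces of multidegree `(2, …, 2)` which are conic bundles. -/

set_option autoImplicit false

namespace Pool.Agent.R867.C

open MvPolynomial Pool.Agent.TH178.HI Pool.Agent.R867.B Pool.Agent.R867.H Pool.Agent.R867.Mov
  Pool.Agent.Y716.M

variable {r : ℕ} {n : Fin r → ℕ} {N : ℕ} (ε : (Σ i : Fin r, Fin (n i)) ≃ Fin N)

/-- the property of the form -/
def CovH (f : MvPolynomial (Var n) ℤ) : Prop :=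
  ∀ (L : Type) [Field L] [CharZero L], Irreducible (MvPolynomial.map (Int.castRingHom L) f) ∧
    ∀ (Q : Type) [Field Q] [Algebra L Q] (y : Var n → Q),
      (∀ G : MvPolynomial (Var n) L, aeval y G = 0 ↔ MvPolynomial.map (Int.castRingHom L) f ∣ G) →
      HCov L (ratios L y) ∧ ∃ m : ℕ, Nonempty (ratios L y →ₐ[L] FractionRing (MvPolynomial (Fin m) L))

theorem covH_of (f : MvPolynomial (Var n) ℤ) (hf : ∀ s ∈ f.support, ∀ i : Fin r,
      ∑ j : Fin (n i + 1), s ⟨i, j⟩ = 2)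
      (h : ∀ (L : Type) [Field L] [CharZero L],
        (∀ i : Fin r, ¬ (X ⟨i, 0⟩ : MvPolynomial (Var n) L) ∣
        MvPolynomial.map (Int.castRingHom L) f) ∧ Irreducible (af ε (fun _ => 2) f L) ∧
        PrC L (af ε (fun _ => 2) f L)) : CovH f := by
  intro L _ _
  obtain ⟨h1, h2, h3, h4⟩ := h L
  refine ⟨(prime_form ε hf h1 h2).irreducible, fun Q _ _ y hy => ?_⟩
  obtain ⟨ξ, hξ⟩ := gp_ratio ε hf h1 h2 hy
  refine ⟨h4 _ ξ hξ, ?_⟩
  obtain ⟨m, P, l, hP1, hP2⟩ := h3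
  obtain ⟨-, ⟨m', P', hP'⟩, -⟩ := uni_of_ind h2 hP1 hP2
  obtain ⟨σ, hσ⟩ := embedG (aeval ξ : MvPolynomial (Fin N) L →ₐ[L] ratios L y)
    (aeval P' : MvPolynomial (Fin N) L →ₐ[L] Rt m' L) (fun G => by
      rw [hξ.zero_iff, hP']) (fun z => by
      obtain ⟨P, Q, h1, h2⟩ := exists_frac hξ.gen z
      exact ⟨P, Q, h1, h2⟩)
  exact ⟨m', ⟨σ⟩⟩

/-- 100% of the hypersurfaces -/
theorem randC {i₀ : Fin r} (h0 : n i₀ = 2) (hr : 2 ≤ r) (hn : ∀ i, 1 ≤ n i)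
    (PH : MvPolynomial (Var n) ℤ → Prop) (hPH : ∀ f, CovH f → PH f) :
    Filter.Tendsto (fun H : ℕ =>
      (({f : MvPolynomial (Var n) ℤ | ((∀ s ∈ f.support, ∀ i : Fin r,
          ∑ j : Fin (n i + 1), s ⟨i, j⟩ = 2) ∧ ∀ s, |f.coeff s| ≤ (H : ℤ)) ∧ ElsB f ∧
          PH f} : Set _).ncard : ℝ) /
      (({f : MvPolynomial (Var n) ℤ | ((∀ s ∈ f.support, ∀ i : Fin r,
          ∑ j : Fin (n i + 1), s ⟨i, j⟩ = 2) ∧ ∀ s, |f.coeff s| ≤ (H : ℤ)) ∧ ElsB f} :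
          Set _).ncard : ℝ)) Filter.atTop (nhds 1) := by
  obtain ⟨N, ⟨ε⟩⟩ : ∃ N, Nonempty ((Σ i : Fin r, Fin (n i)) ≃ Fin N) :=
    ⟨_, ⟨Fintype.equivFin _⟩⟩
  have hcl : ClassStmtM n (fun _ => 2) := class_theoremM n _ i₀ hr (fun _ => le_rfl) hn
    (by omega) (by omega)
  exact tendsto_of_bound (d := fun _ => 2) (by omega) hn (fun _ => le_rfl) hcl PH
    (fun δ hδ => rand_homP ε (fun L _ f => PrC L f) PH hr hn (fun _ => le_rfl)
      ⟨i₀, by omega⟩ (unifC ε h0 hr hn) (fun f hf h => hPH f (covH_of ε f hf h)) hδ)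

end Pool.Agent.R867.C
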