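import Pool.Agent.TH178.HI.Two
import Pool.Agent.R867.B.Stereo
import Pool.Agent.R867.B.Core1

/-! Descent of covers which become constant over an algebraic closure of the base. -/

set_option autoImplicit false

namespace Pool.Agent.R867.C

open Polynomial Pool.Agent.TH178.HI Pool.Agent.R867.B

variable {k E : Type} [Field k] [Field E] [Algebra k E]

theorem rc_theta {D P M : IntermediateField k E} (hDP : D ≤ P) (hPM : P ≤ M) (hD : RelCl D M)
    {θ x : E} (hθ : IsAlgebraic D θ) (hxM : x ∈ M)
    (hx : x ∈ IntermediateField.adjoin P ({θ} : Set E)) : x ∈ P := by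
  have hDM := hDP.trans hPM
  letI : Algebra D M := (IntermediateField.inclusion hDM).toRingHom.toAlgebra
  haveI : IsScalarTower D M E := IsScalarTower.of_algebraMap_eq fun _ => rfl
  letI : Algebra D P := (IntermediateField.inclusion hDP).toRingHom.toAlgebra
  haveI : IsScalarTower D P E := IsScalarTower.of_algebraMap_eq fun _ => rfl
  letI : Algebra P M := (IntermediateField.inclusion hPM).toRingHom.toAlgebra
  haveI : IsScalarTower P M E := IsScalarTower.of_algebraMap_eq fun _ => rfl
  have hint : IsIntegral D θ := hθ.isIntegral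
  have hintM : IsIntegral M θ := hint.tower_top
  have hintP : IsIntegral P θ := hint.tower_top
  have h1 : minpoly M θ ∣ (minpoly D θ).map (algebraMap D M) :=
    minpoly.dvd_map_of_isScalarTower D M θ
  have h2 := integralClosure.mem_lifts_of_monic_of_dvd_map M (minpoly.monic hint)
    (minpoly.monic hintM) h1
  have h3 : ∀ n, ∃ d : D, algebraMap D M d = (minpoly M θ).coeff n := by
    intro n
    obtain ⟨q, hq⟩ := (mem_lifts _).mp h2
    have h4 : (minpoly M θ).coeff n = algebraMap (integralClosure D M) M (q.coeff n) := by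
      rw [← hq, coeff_map]
    have h5 : IsIntegral D ((minpoly M θ).coeff n) := by
      rw [h4]
      exact (q.coeff n).2
    have h6 : IsAlgebraic D ((minpoly M θ).coeff n : E) :=
      (h5.map (IsScalarTower.toAlgHom D M E)).isAlgebraic
    refine ⟨⟨_, hD _ ((minpoly M θ).coeff n).2 h6⟩, ?_⟩
    apply Subtype.ext
    rfl
  obtain ⟨m', hm'⟩ : ∃ m' : D[X], m'.map (algebraMap D M) = minpoly M θ := by
    have : minpoly M θ ∈ lifts (algebraMap D M) := by
      rw [lifts_iff_coeff_lifts]
      intro n
      obtain ⟨d, hd⟩ := h3 n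
      exact ⟨d, hd⟩
    exact (mem_lifts _).mp this
  have h4 : aeval θ m' = 0 := by
    have h5 : aeval θ (m'.map (algebraMap D M)) = 0 := by rw [hm', minpoly.aeval]
    rwa [aeval_map_algebraMap] at h5
  have hm0 : m' ≠ 0 := by
    rintro rfl
    rw [Polynomial.map_zero] at hm'
    exact minpoly.ne_zero hintM hm'.symm
  have h5 : (minpoly D θ).natDegree ≤ (minpoly M θ).natDegree := by
    rw [← hm', natDegree_map]
    exact natDegree_le_of_dvd (minpoly.dvd D θ h4) hm0
  have h6 : (minpoly P θ).natDegree ≤ (minpoly D θ).natDegree := by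
    have h7 : minpoly P θ ∣ (minpoly D θ).map (algebraMap D P) :=
      minpoly.dvd_map_of_isScalarTower D P θ
    have h8 := natDegree_le_of_dvd h7 (by
      rw [Ne, Polynomial.map_eq_zero]
      exact minpoly.ne_zero hint)
    rwa [natDegree_map] at h8
  obtain ⟨r, hr⟩ : ∃ r : P[X], aeval θ r = x := by
    have h7 : x ∈ (IntermediateField.adjoin P ({θ} : Set E)).toSubalgebra := hx
    rw [IntermediateField.adjoin_simple_toSubalgebra_of_isAlgebraic hintP.isAlgebraic,
      Algebra.adjoin_singleton_eq_range_aeval] at h7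
    exact h7
  obtain ⟨r', hr', hdeg⟩ : ∃ r' : P[X], aeval θ r' = x ∧ r'.natDegree < (minpoly P θ).natDegree := by
    refine ⟨r %ₘ minpoly P θ, ?_, natDegree_modByMonic_lt _ (minpoly.monic hintP)
      (minpoly.ne_one P θ)⟩
    rw [← modByMonic_add_div r (minpoly P θ)] at hr
    rw [map_add, map_mul, minpoly.aeval, zero_mul, add_zero] at hr
    exact hr
  have h7 : r'.map (algebraMap P M) - C (⟨x, hxM⟩ : M) = 0 := by
    by_contra hne
    have h8 : aeval θ (r'.map (algebraMap P M) - C (⟨x, hxM⟩ : M)) = 0 := by
      rw [map_sub, aeval_map_algebraMap, hr', aeval_C]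
      exact sub_self x
    have h9 := natDegree_le_of_dvd (minpoly.dvd M θ h8) hne
    have h10 : (r'.map (algebraMap P M) - C (⟨x, hxM⟩ : M)).natDegree ≤ r'.natDegree := by
      refine (natDegree_sub_le _ _).trans ?_
      rw [natDegree_C, natDegree_map]
      simp
    omega
  have h8 := congrArg (fun p => p.coeff 0) h7
  simp only [coeff_sub, coeff_map, coeff_C_zero, coeff_zero] at h8
  have h9 := congrArg (algebraMap M E) (sub_eq_zero.mp h8)
  have h10 : (r'.coeff 0 : E) = x := h9
  rw [← h10]
  exact (r'.coeff 0).2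

theorem rc [CharZero E] {K0 M0 : IntermediateField k E} {S : Set E} (hKM : K0 ≤ M0)
    (hS : S ⊆ K0) (h : M0 ≤ K0 ⊔ AC k S) : M0 ≤ K0 ⊔ (M0 ⊓ AC k S) := by
  intro x hx
  obtain ⟨D, hD⟩ : ∃ D, D = M0 ⊓ AC k S := ⟨_, rfl⟩
  rw [← hD]
  have hDM : D ≤ M0 := by rw [hD]; exact inf_le_left
  have hDA : D ≤ AC k S := by rw [hD]; exact inf_le_right
  have hDcl : RelCl D M0 := by
    intro y hy hya
    rw [hD, IntermediateField.mem_inf]
    exact ⟨hy, AC_closed (isAlgebraic_mono hDA hya)⟩
  have hSD : IntermediateField.adjoin k S ≤ D := by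
    rw [IntermediateField.adjoin_le_iff]
    intro y hy
    rw [hD]
    exact ⟨hKM (hS hy), subset_AC S hy⟩
  obtain ⟨P, hP⟩ : ∃ P, P = K0 ⊔ D := ⟨_, rfl⟩
  rw [← hP]
  have hDP : D ≤ P := by rw [hP]; exact le_sup_right
  have hPM : P ≤ M0 := by rw [hP]; exact sup_le hKM hDM
  have h1 : x ∈ IntermediateField.adjoin P (AC k S : Set E) := by
    have h2 : K0 ⊔ AC k S ≤ (IntermediateField.adjoin P (AC k S : Set E)).restrictScalars k := by
      refine sup_le ?_ ?_
      · intro y hy
        have hyP : y ∈ P := by rw [hP]; exact (le_sup_left : K0 ≤ K0 ⊔ D) hy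
        exact IntermediateField.algebraMap_mem _ (⟨y, hyP⟩ : P)
      · intro y hy
        exact IntermediateField.subset_adjoin P _ hy
    exact h2 (h hx)
  obtain ⟨T, hTS, hxT⟩ := IntermediateField.exists_finset_of_mem_adjoin h1
  letI : Algebra D P := (IntermediateField.inclusion hDP).toRingHom.toAlgebra
  haveI : IsScalarTower D P E := IsScalarTower.of_algebraMap_eq fun _ => rfl
  have hTalg : ∀ y ∈ (T : Set E), IsIntegral D y := by
    intro y hy
    have h2 := mem_AC.mp (hTS hy)
    exact (isAlgebraic_mono hSD h2).isIntegral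
  haveI : FiniteDimensional D (IntermediateField.adjoin D (T : Set E)) :=
    IntermediateField.finiteDimensional_adjoin hTalg
  haveI : CharZero D := charZero_of_injective_algebraMap (algebraMap ℚ D).injective
  obtain ⟨θ, hθ⟩ := Field.exists_primitive_element D (IntermediateField.adjoin D (T : Set E))
  have h2 : IntermediateField.adjoin D (T : Set E) = IntermediateField.adjoin D {(θ : E)} := by
    have h3 := congrArg (fun F => F.map (IntermediateField.adjoin D (T : Set E)).val) hθ
    simp only [IntermediateField.adjoin_map, Set.image_singleton] at h3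
    rw [← AlgHom.fieldRange_eq_map, IntermediateField.fieldRange_val] at h3
    exact h3.symm
  have h3 : x ∈ IntermediateField.adjoin P ({(θ : E)} : Set E) := by
    have h4 : IntermediateField.adjoin P (T : Set E) ≤ IntermediateField.adjoin P {(θ : E)} := by
      rw [IntermediateField.adjoin_le_iff]
      intro y hy
      have h5 : y ∈ IntermediateField.adjoin D {(θ : E)} := by
        rw [← h2]
        exact IntermediateField.subset_adjoin D _ hy
      have h6 : IntermediateField.adjoin D {(θ : E)} ≤
          (IntermediateField.adjoin P {(θ : E)}).restrictScalars D := by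
        rw [IntermediateField.adjoin_le_iff]
        rintro z hz
        exact IntermediateField.subset_adjoin P _ hz
      exact h6 h5
    exact h4 hxT
  have hθa : IsAlgebraic D (θ : E) := (Algebra.IsAlgebraic.isAlgebraic (R := D) θ).algebraMap
  exact rc_theta hDP hPM hDcl hθa hx h3

end Pool.Agent.R867.C
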