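import Pool.Agent.R867.C.Gal
import Pool.Agent.R867.C.Nc

/-! A cover which is constant on two conic fibrations is constant in one direction. -/

set_option autoImplicit false

namespace Pool.Agent.R867.C

open Polynomial Pool.Agent.TH178.HI Pool.Agent.R867.B

variable {k E : Type} [Field k] [Field E] [Algebra k E]

/-- the embedding of `Λ(X)` given by a transcendental element -/
theorem exists_j {Λ : IntermediateField k E} {t : E} (ht : Transcendental Λ t) :
    ∃ j : RatFunc Λ →ₐ[Λ] E, (∀ p : Λ[X], j (algebraMap Λ[X] (RatFunc Λ) p) = aeval t p) ∧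
      ∀ z : E, z ∈ IntermediateField.adjoin k ((Λ : Set E) ∪ {t}) → z ∈ Set.range j := by
  obtain ⟨j, hj⟩ : ∃ j : RatFunc Λ →ₐ[Λ] E, j = (IntermediateField.adjoin Λ {t}).val.comp
    (RatFunc.algEquivOfTranscendental t ht).toAlgHom := ⟨_, rfl⟩
  have hj1 : ∀ p : Λ[X], j (algebraMap Λ[X] (RatFunc Λ) p) = aeval t p := by
    intro p
    rw [hj]
    change ((RatFunc.algEquivOfTranscendental t ht (algebraMap Λ[X] (RatFunc Λ) p) :
      IntermediateField.adjoin Λ {t}) : E) = _
    rw [RatFunc.algEquivOfTranscendental_algebraMap]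
    simp
  refine ⟨j, hj1, fun z hz => ?_⟩
  have h1 : IntermediateField.adjoin k ((Λ : Set E) ∪ {t}) ≤ j.fieldRange.restrictScalars k := by
    rw [IntermediateField.adjoin_le_iff]
    rintro y (hy | hy)
    · exact ⟨algebraMap Λ (RatFunc Λ) ⟨y, hy⟩, j.commutes _⟩
    · rw [Set.mem_singleton_iff] at hy
      rw [hy]
      refine ⟨algebraMap Λ[X] (RatFunc Λ) X, ?_⟩
      have := hj1 X
      rw [aeval_X] at this
      exact this
  exact h1 hz

theorem adj_eq (Λ : IntermediateField k E) (S : Set E) (z : E) :
    z ∈ IntermediateField.adjoin k ((Λ : Set E) ∪ S) ↔ z ∈ IntermediateField.adjoin Λ S := by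
  constructor
  · intro h
    have h1 : IntermediateField.adjoin k ((Λ : Set E) ∪ S) ≤
        (IntermediateField.adjoin Λ S).restrictScalars k := by
      rw [IntermediateField.adjoin_le_iff]
      rintro y (hy | hy)
      · exact IntermediateField.algebraMap_mem _ (⟨y, hy⟩ : Λ)
      · exact IntermediateField.subset_adjoin Λ _ hy
    exact h1 h
  · intro h
    induction h using IntermediateField.adjoin_induction with
    | mem x hx => exact IntermediateField.subset_adjoin k _ (Or.inr hx)
    | algebraMap x => exact IntermediateField.subset_adjoin k _ (Or.inl x.2)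
    | add x y _ _ hx hy => exact add_mem hx hy
    | inv x _ hx => exact inv_mem hx
    | mul x y _ _ hx hy => exact mul_mem hx hy

theorem lift_core [CharZero E] [IsAlgClosed E] {Λ : IntermediateField k E} (hΛ : IsAlgClosed Λ)
    {t : E} (ht : Transcendental Λ t) {P Q : Λ[X]} (hc : IsCoprime P Q) (hQ : Q ≠ 0)
    (hmax : max P.natDegree Q.natDegree = 4)
    (hsq : ∀ (a c : Λ) (w : Λ[X]), P - C a * Q ≠ C c * w ^ 2) {x : E} {c : Λ}
    (hx : (x - c) * aeval t Q = aeval t P) {L1 : IntermediateField k E}
    (hL1 : L1 ≤ IntermediateField.adjoin k ((Λ : Set E) ∪ {x})) {γ : E}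
    (hγ : IsAlgebraic L1 γ)
    (hroots : ∀ z : E, aeval z (minpoly L1 γ) = 0 →
      z ∈ IntermediateField.adjoin k ((Λ : Set E) ∪ {t})) :
    γ ∈ IntermediateField.adjoin k ((Λ : Set E) ∪ {x}) := by
  haveI : CharZero Λ := charZero_of_injective_algebraMap (algebraMap ℚ Λ).injective
  haveI : CharZero L1 := charZero_of_injective_algebraMap (algebraMap ℚ L1).injective
  obtain ⟨j, hj1, hj2⟩ := exists_j (k := k) ht
  have hQt : aeval t Q ≠ 0 := by
    intro h
    exact hQ (transcendental_iff.mp ht Q h)
  have hjf : j (qf P Q) = x - c := by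
    rw [qf, map_div₀, hj1, hj1, ← hx, mul_div_cancel_right₀ _ hQt]
  have hFx : (IntermediateField.adjoin Λ {qf P Q}).map j = IntermediateField.adjoin Λ {x} := by
    rw [IntermediateField.adjoin_map, Set.image_singleton, hjf]
    apply le_antisymm
    · rw [IntermediateField.adjoin_simple_le_iff]
      exact sub_mem (IntermediateField.mem_adjoin_simple_self _ _)
        (IntermediateField.algebraMap_mem _ c)
    · rw [IntermediateField.adjoin_simple_le_iff]
      have h1 : (x - c) + (c : E) ∈ IntermediateField.adjoin Λ {x - (c : E)} :=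
        add_mem (IntermediateField.mem_adjoin_simple_self _ _)
          (IntermediateField.algebraMap_mem _ c)
      rwa [sub_add_cancel] at h1
  have hLF : ∀ a : L1, (a : E) ∈ (IntermediateField.adjoin Λ {qf P Q}).map j := by
    intro a
    rw [hFx]
    exact (adj_eq Λ {x} a).mp (hL1 a.2)
  obtain ⟨i, hi⟩ : ∃ i : L1 →+* IntermediateField.adjoin Λ {qf P Q},
      ∀ a : L1, j (i a : RatFunc Λ) = (a : E) := by
    refine ⟨((IntermediateField.equivMap (IntermediateField.adjoin Λ {qf P Q}) j).symm :
      _ →+* _).comp ((algebraMap L1 E).codRestrict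
        ((IntermediateField.adjoin Λ {qf P Q}).map j) hLF), fun a => ?_⟩
    rw [← IntermediateField.coe_equivMap_apply]
    simp
  have hint : IsIntegral L1 γ := hγ.isIntegral
  obtain ⟨p, hp⟩ : ∃ p, p = (minpoly L1 γ).map i := ⟨_, rfl⟩
  have hpj : (p.map (algebraMap (IntermediateField.adjoin Λ {qf P Q}) (RatFunc Λ))).map
      (j : RatFunc Λ →+* E) = (minpoly L1 γ).map (algebraMap L1 E) := by
    rw [hp, Polynomial.map_map, Polynomial.map_map]
    congr 1
    ext a
    exact hi a
  have hne : (minpoly L1 γ).map (algebraMap L1 E) ≠ 0 := by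
    rw [Ne, Polynomial.map_eq_zero]
    exact minpoly.ne_zero hint
  have hsplit : (p.map (algebraMap (IntermediateField.adjoin Λ {qf P Q}) (RatFunc Λ))).Splits := by
    refine Splits.of_splits_map (j : RatFunc Λ →+* E) (by rw [hpj]; exact IsAlgClosed.splits _) ?_
    intro z hz
    rw [hpj, mem_roots hne, IsRoot.def, eval_map_algebraMap] at hz
    obtain ⟨y, hy⟩ := hj2 z (hroots z hz)
    exact ⟨y, hy⟩
  have hsep : p.Separable := by
    rw [hp]
    exact (minpoly.irreducible hint).separable.map
  obtain ⟨r, hr⟩ := hj2 γ (hroots γ (minpoly.aeval _ _))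
  have hr0 : aeval r p = 0 := by
    have hinj : Function.Injective j := j.toRingHom.injective
    apply hinj
    rw [map_zero]
    have h2 : ∀ q : (RatFunc Λ)[X], j (eval r q) = eval (j r) (q.map (j : RatFunc Λ →+* E)) := by
      intro q
      rw [eval_map]
      exact (Polynomial.eval₂_at_apply (j : RatFunc Λ →+* E) r).symm
    rw [← eval_map_algebraMap, h2, hpj, hr, eval_map_algebraMap, minpoly.aeval]
  have h3 := kum_gal hc hQ hmax hsq p hsep hsplit hr0
  rw [adj_eq, ← hFx]
  exact ⟨r, h3, hr⟩

end Pool.Agent.R867.C
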