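import Pool.Agent.R867.C.Cnc
import Pool.Agent.R867.B.Core1

/-! The involutions and the parametrized conics through a general point. -/

set_option autoImplicit false

namespace Pool.Agent.R867.C

open MvPolynomial Pool.Agent.TH178.HI Pool.Agent.R867.B Pool.Agent.R867.H Pool.Agent.R867.Mov

variable {N : ℕ} {k : Type} [Field k]

/-- the conditions at the origin -/
structure Cnd (f : MvPolynomial (Fin N) k) (a b i : Fin N) : Prop where
  hab : a ≠ b
  hai : a ≠ i
  hbi : b ≠ i
  sup : ∀ m ∈ f.support, m a + m b ≤ 2 ∧ m i ≤ 2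
  f0 : coeff 0 f = 0
  c20 : coeff (ex a b i 2 0 0) f ≠ 0
  c02 : coeff (ex a b i 0 2 0) f ≠ 0
  c1 : coeff (ex a b i 0 0 1) f ≠ 0
  c2 : coeff (ex a b i 0 0 2) f ≠ 0
  cd : dd (fun p q r => coeff (ex a b i p q r) f) ≠ 0
  cp : phi (fun p q r => coeff (ex a b i p q r) f) ≠ 0

theorem sup3 {S : Type} [CommRing S] [Algebra k S] {a b i : Fin N} {f : MvPolynomial (Fin N) k}
    (hf : ∀ m ∈ f.support, m a + m b ≤ 2 ∧ m i ≤ 2) (x : Fin N → S) :
    ∀ m ∈ (tr x (MvPolynomial.map (algebraMap k S) f)).support, m a + m b ≤ 2 ∧ m i ≤ 2 := by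
  classical
  have key : ∀ m ∈ (tr x (MvPolynomial.map (algebraMap k S) f)).support,
      ∃ m' ∈ f.support, m ≤ m' := by
    intro m hm
    by_contra hcon
    push Not at hcon
    rw [mem_support_iff] at hm
    apply hm
    have h1 : MvPolynomial.map (algebraMap k S) f =
        ∑ m' ∈ f.support, C (algebraMap k S (coeff m' f)) * monomial m' 1 := by
      conv_lhs => rw [f.as_sum, map_sum]
      apply Finset.sum_congr rfl
      intro m' _
      rw [map_monomial, C_mul_monomial, mul_one]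
    rw [h1, map_sum, coeff_sum]
    apply Finset.sum_eq_zero
    intro m' hm'
    have h2 : tr x (C (algebraMap k S (coeff m' f)) * monomial m' 1) =
        C (algebraMap k S (coeff m' f)) * tr x (monomial m' 1) := by
      rw [map_mul]
      congr 1
      exact (tr x).commutes _
    rw [h2, coeff_C_mul]
    have h3 : m ∉ (tr x (monomial m' 1)).support := fun h => hcon m' hm' (sup_tr x m' m h)
    rw [notMem_support_iff.mp h3, mul_zero]
  intro m hm
  obtain ⟨m', h1, h2⟩ := key m hm
  have h3 := hf m' h1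
  have h4 := h2 a
  have h5 := h2 b
  have h6 := h2 i
  omega

/-- the coefficients of the universal translate -/
noncomputable def cX (f : MvPolynomial (Fin N) k) (a b i : Fin N) (p q r : ℕ) :
    MvPolynomial (Fin N) k :=
  coeff (ex a b i p q r) (tr (X : Fin N → MvPolynomial (Fin N) k) (MvPolynomial.map C f))

theorem cX_zero (f : MvPolynomial (Fin N) k) (a b i : Fin N) (p q r : ℕ) :
    eval 0 (cX f a b i p q r) = coeff (ex a b i p q r) f := by
  have h7 := coeff_trX (S := k) f (0 : Fin N → k) (ex a b i p q r)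
  have h7' : ∀ P : MvPolynomial (Fin N) k, eval (0 : Fin N → k) P =
      aeval (0 : Fin N → k) P := fun P => rfl
  rw [cX, h7', h7]
  have h8 : tr (0 : Fin N → k) (MvPolynomial.map (algebraMap k k) f) = f := by
    unfold tr
    have h9 : (fun l => X l + C ((0 : Fin N → k) l)) =
        (X : Fin N → MvPolynomial (Fin N) k) := by
      funext l
      rw [Pi.zero_apply, map_zero, add_zero]
    rw [h9, aeval_X_left_apply]
    exact MvPolynomial.map_id f
  rw [h8]

/-- expansion around `x` -/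
theorem expand {S : Type} [CommRing S] [Algebra k S] {a b i : Fin N} (hab : a ≠ b) (hai : a ≠ i)
    (hbi : b ≠ i) {f : MvPolynomial (Fin N) k}
    (hf : ∀ m ∈ f.support, m a + m b ≤ 2 ∧ m i ≤ 2) (x T : Fin N → S)
    (hT : ∀ l, l ≠ a → l ≠ b → l ≠ i → T l = 0) :
    aeval (fun l => x l + T l) f =
      cq (fun p q r => aeval x (cX f a b i p q r)) 0 (T a) (T b) +
      cq (fun p q r => aeval x (cX f a b i p q r)) 1 (T a) (T b) * T i +
      cq (fun p q r => aeval x (cX f a b i p q r)) 2 (T a) (T b) * T i ^ 2 := by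
  have h := aeval_three (Om := S) hab hai hbi (sup3 hf x) hT
  rw [aeval_tr, aeval_map_algebraMap] at h
  have h1 : (fun l => T l + algebraMap S S (x l)) = fun l => x l + T l := by
    funext l
    rw [Algebra.algebraMap_self, RingHom.id_apply, add_comm]
  rw [h1] at h
  rw [h]
  simp only [cX, coeff_trX, Algebra.algebraMap_self, RingHom.id_apply]

theorem eval_dvd {f : MvPolynomial (Fin N) k} (h0 : coeff 0 f = 0) {P : MvPolynomial (Fin N) k}
    (h : f ∣ P) : eval 0 P = 0 := by
  obtain ⟨g, rfl⟩ := h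
  rw [map_mul]
  have h1 : eval 0 f = 0 := by
    rw [← h0, ← constantCoeff_eq, constantCoeff_eq]
    simp [eval_zero', constantCoeff_eq]
  rw [h1, zero_mul]

theorem deg_ne {f : MvPolynomial (Fin N) k} {m : Fin N →₀ ℕ} {l : Fin N} (h : coeff m f ≠ 0)
    (hl : m l ≠ 0) : degreeOf l f ≠ 0 := by
  have h1 := monomial_le_degreeOf l (mem_support_iff.mpr h)
  omega

variable {K : Type} [Field K] [Algebra k K]

/-- the involution -/
theorem exists_tau [CharZero k] {f : MvPolynomial (Fin N) k} {a b i : Fin N} (hc : Cnd f a b i)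
    {ξ : Fin N → K} (hξ : GP f ξ) : ∃ τ : K ≃ₐ[k] K, (∀ l, l ≠ i → τ (ξ l) = ξ l) ∧
      τ (ξ i) ≠ ξ i := by
  classical
  haveI : CharZero K := charZero_of_injective_algebraMap (algebraMap k K).injective
  have hf0 : f ≠ 0 := by
    rintro rfl
    exact hc.c1 (coeff_zero _)
  have hdi : degreeOf i f ≠ 0 := deg_ne hc.c1 (by rw [ex_i hc.hai hc.hbi]; norm_num)
  have hG : ∀ P : MvPolynomial (Fin N) k, eval 0 P ≠ 0 → aeval ξ P ≠ 0 := fun P h1 h2 =>
    h1 (eval_dvd hc.f0 ((hξ.zero_iff P).mp h2))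
  have hz : aeval ξ f = 0 := (hξ.zero_iff f).mpr dvd_rfl
  obtain ⟨c, hcd⟩ : ∃ c : ℕ → K, ∀ r, c r = aeval ξ (cX f a b i 0 0 r) := ⟨_, fun _ => rfl⟩
  have hc1 : c 1 ≠ 0 := by
    rw [hcd]
    exact hG _ (by rw [cX_zero]; exact hc.c1)
  have hc2 : c 2 ≠ 0 := by
    rw [hcd]
    exact hG _ (by rw [cX_zero]; exact hc.c2)
  have hexp : ∀ (x : Fin N → K) (s : K), aeval (fun l => x l + if l = i then s else 0) f =
      aeval x (cX f a b i 0 0 0) + aeval x (cX f a b i 0 0 1) * s +
        aeval x (cX f a b i 0 0 2) * s ^ 2 := by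
    intro x s
    rw [expand hc.hab hc.hai hc.hbi hc.sup x (fun l => if l = i then s else 0)
      (fun l _ _ h => if_neg h)]
    simp only [if_neg hc.hai, if_neg hc.hbi, if_true, cq]
    ring
  have hc0 : c 0 = 0 := by
    have h1 := hexp ξ 0
    have h2 : (fun l => ξ l + if l = i then (0 : K) else 0) = ξ := by
      funext l
      simp
    rw [h2, hz] at h1
    rw [hcd]
    simpa using h1.symm
  obtain ⟨h, hh⟩ : ∃ h, h = - c 1 / c 2 := ⟨_, rfl⟩
  have hh0 : h ≠ 0 := by
    rw [hh]
    exact div_ne_zero (neg_ne_zero.mpr hc1) hc2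
  have hy : aeval (fun l => ξ l + if l = i then h else 0) f = 0 := by
    rw [hexp, ← hcd, ← hcd, ← hcd, hc0, hh]
    field_simp
    ring
  have hind : AlgebraicIndependent k (fun l : {l : Fin N // l ≠ i} =>
      ξ l + if (l : Fin N) = i then h else 0) := by
    have h1 := indep_of hf0 hdi (fun P => (hξ.zero_iff P).mp)
    have h2 : (fun l : {l : Fin N // l ≠ i} => ξ l + if (l : Fin N) = i then h else 0) =
        fun l : {l : Fin N // l ≠ i} => ξ l := by
      funext l
      rw [if_neg l.2, add_zero]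
    rw [h2]
    exact h1
  obtain ⟨σ, hσ⟩ := exists_hom hξ hy hdi hf0 hind
  have hσl : ∀ l, l ≠ i → σ (ξ l) = ξ l := by
    intro l hl
    rw [hσ, if_neg hl, add_zero]
  have hσi : σ (ξ i) = ξ i + h := by rw [hσ, if_pos rfl]
  -- surjectivity
  obtain ⟨x0, hx0⟩ : ∃ x0 : Fin N → K, ∀ l, x0 l = if l = i then 0 else ξ l := ⟨_, fun _ => rfl⟩
  obtain ⟨d, hd⟩ : ∃ d : ℕ → K, ∀ r, d r = aeval x0 (cX f a b i 0 0 r) := ⟨_, fun _ => rfl⟩
  have hR : ∀ r, d r ∈ σ.fieldRange := by
    intro r
    rw [hd]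
    refine Pool.Agent.R867.B.aeval_mem' (fun l => ?_) _
    rw [hx0]
    split_ifs with hl
    · exact zero_mem _
    · exact ⟨ξ l, hσl l hl⟩
  have e0 : ∀ s : K, c 1 * s + c 2 * s ^ 2 = d 0 + d 1 * (ξ i + s) + d 2 * (ξ i + s) ^ 2 := by
    intro s
    have h1 := hexp ξ s
    have h2 := hexp x0 (ξ i + s)
    have h3 : (fun l => x0 l + if l = i then (ξ i + s) else 0) =
        fun l => ξ l + if l = i then s else 0 := by
      funext l
      rw [hx0]
      by_cases hl : l = i
      · simp [hl]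
      · simp [hl]
    rw [h3, h1, ← hcd, ← hcd, ← hcd, hc0, ← hd, ← hd, ← hd] at h2
    linear_combination h2
  have f0 := e0 0
  have f1 := e0 1
  have f2 := e0 (-1)
  have fh := e0 h
  have hd2 : d 2 = c 2 := by
    have h2 : (2 : K) ≠ 0 := two_ne_zero
    apply mul_left_cancel₀ h2
    linear_combination 2 * f0 - f1 - f2
  have hsum : ξ i + (ξ i + h) = - d 1 / d 2 := by
    have h1 : d 2 ≠ 0 := by rw [hd2]; exact hc2
    rw [eq_div_iff h1]
    apply mul_left_cancel₀ hh0
    have h3 : c 1 * h + c 2 * h ^ 2 = 0 := by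
      rw [hh]
      field_simp
      ring
    linear_combination f0 - fh + h3
  have hsurj : Function.Surjective σ := by
    have h1 : σ.fieldRange = ⊤ := by
      rw [eq_top_iff, ← hξ.gen, IntermediateField.adjoin_le_iff]
      rintro _ ⟨l, rfl⟩
      by_cases hl : l = i
      · rw [hl]
        have h2 : ξ i = - d 1 / d 2 - σ (ξ i) := by
          rw [hσi, ← hsum]
          ring
        rw [h2]
        exact sub_mem (div_mem (neg_mem (hR 1)) (hR 2)) ⟨ξ i, rfl⟩
      · exact ⟨ξ l, hσl l hl⟩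
    intro z
    have h2 : z ∈ σ.fieldRange := by rw [h1]; trivial
    exact h2
  refine ⟨AlgEquiv.ofBijective σ ⟨σ.toRingHom.injective, hsurj⟩, hσl, ?_⟩
  intro h1
  have h2 : σ (ξ i) = ξ i := h1
  rw [hσi] at h2
  exact hh0 (by linear_combination h2)

end Pool.Agent.R867.C
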