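import Pool.Agent.R867.C.Fin2
import Pool.Agent.R867.B.Rand7

/-! The universal condition. -/

set_option autoImplicit false

namespace Pool.Agent.R867.C

open MvPolynomial Pool.Agent.TH178.HI Pool.Agent.R867.B Pool.Agent.R867.H

section

variable {N r : ℕ} {β : Fin N → Fin r} {a b : Fin N}

theorem ex_expo (hab : β a = β b) {i : Fin N} (hai : β a ≠ β i) {p q s : ℕ}
    (h1 : p + q ≤ 2) (h2 : s ≤ 2) : ex a b i p q s ∈ expo β (fun _ => 2) := by
  rw [mem_expo]
  intro j
  unfold ex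
  simp only [Finsupp.add_apply, Finset.sum_add_distrib]
  rw [sum_single, sum_single, sum_single]
  split_ifs with h3 h4 h5 h5 h4 h5 h5 <;> try omega
  all_goals first
    | exact absurd (h3.trans h5.symm) hai
    | (exfalso; apply hai; rw [h3, h5])
    | (exfalso; apply hai; rw [hab, h4, h5])
    | omega

theorem ex_ne {i : Fin N} (hab : a ≠ b) (hai : a ≠ i) (hbi : b ≠ i) {p q s : ℕ}
    (h : p ≠ 0 ∨ q ≠ 0 ∨ s ≠ 0) : ex a b i p q s ≠ 0 := by
  intro h0
  have e1 := DFunLike.congr_fun h0 a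
  have e2 := DFunLike.congr_fun h0 b
  have e3 := DFunLike.congr_fun h0 i
  rw [ex_a hab hai] at e1
  rw [ex_b hab hbi] at e2
  rw [ex_i hai hbi] at e3
  simp at e1 e2 e3
  omega

theorem c0_ne {p q s : ℕ} (h : c0 p q s ≠ 0) :
    p + q ≤ 2 ∧ s ≤ 2 ∧ (p ≠ 0 ∨ q ≠ 0 ∨ s ≠ 0) := by
  unfold c0 at h
  split_ifs at h with h1 h2 h3 h4 h5
  · simp only [Prod.mk.injEq] at h1; omega
  · simp only [Prod.mk.injEq] at h2; omega
  · simp only [Prod.mk.injEq] at h3; omega
  · simp only [Prod.mk.injEq] at h4; omega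
  · simp only [Prod.mk.injEq] at h5; omega
  · exact absurd rfl h

open Classical in
/-- universal coefficients -/
noncomputable def cu (Z : Finset (Fin N →₀ ℕ)) (a b i : Fin N) (p q s : ℕ) : MvPolynomial Z ℚ :=
  if h : ex a b i p q s ∈ Z then X ⟨_, h⟩ else 0

theorem exists_cnd (h0 : a ≠ b) (hab : β a = β b) (ho : ∀ l, l ≠ a → l ≠ b → β a ≠ β l) :
    ∃ Φ : MvPolynomial ((expo β (fun _ => 2)).erase 0 : Finset (Fin N →₀ ℕ)) ℚ, Φ ≠ 0 ∧
      ∀ {L : Type} [Field L] [CharZero L] (f : MvPolynomial (Fin N) L),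
        f.support ⊆ expo β (fun _ => 2) → coeff 0 f = 0 →
        aeval (fun m : ((expo β (fun _ => 2)).erase 0 : Finset (Fin N →₀ ℕ)) =>
          coeff (m : Fin N →₀ ℕ) f) Φ ≠ 0 → ∀ i, i ≠ a → i ≠ b → Cnd f a b i := by
  classical
  obtain ⟨Z, hZ⟩ : ∃ Z, Z = (expo β (fun _ => 2)).erase 0 := ⟨_, rfl⟩
  have hZm : ∀ {i : Fin N} {p q s : ℕ}, i ≠ a → i ≠ b → p + q ≤ 2 → s ≤ 2 →
      (p ≠ 0 ∨ q ≠ 0 ∨ s ≠ 0) → ex a b i p q s ∈ Z := by
    intro i p q s h1 h2 h3 h4 h5
    rw [hZ, Finset.mem_erase]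
    exact ⟨ex_ne h0 h1.symm h2.symm h5, ex_expo hab (ho i h1 h2) h3 h4⟩
  rw [← hZ]
  obtain ⟨F, hF⟩ : ∃ F : Fin N → MvPolynomial Z ℚ, ∀ i, F i = cu Z a b i 2 0 0 *
    cu Z a b i 0 2 0 * cu Z a b i 0 0 1 * cu Z a b i 0 0 2 * dd (cu Z a b i) * phi (cu Z a b i) :=
    ⟨_, fun _ => rfl⟩
  refine ⟨∏ i ∈ Finset.univ.filter (fun i => i ≠ a ∧ i ≠ b), F i, ?_, ?_⟩
  · rw [Finset.prod_ne_zero_iff]
    intro i hi
    rw [Finset.mem_filter] at hi
    obtain ⟨-, hia, hib⟩ := hi
    have hX : ∀ {p q s : ℕ}, p + q ≤ 2 → s ≤ 2 → (p ≠ 0 ∨ q ≠ 0 ∨ s ≠ 0) →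
        cu Z a b i p q s ≠ 0 := by
      intro p q s h1 h2 h3
      unfold cu
      rw [dif_pos (hZm hia hib h1 h2 h3)]
      exact X_ne_zero _
    obtain ⟨s0, hs0⟩ : ∃ s0 : Z → ℚ, ∀ m : Z, s0 m =
        c0 ((m : Fin N →₀ ℕ) a) ((m : Fin N →₀ ℕ) b) ((m : Fin N →₀ ℕ) i) := ⟨_, fun _ => rfl⟩
    have hev : (fun p q s => (aeval s0 : MvPolynomial Z ℚ →ₐ[ℚ] ℚ).toRingHom (cu Z a b i p q s)) =
        c0 := by
      funext p q s
      change aeval s0 (cu Z a b i p q s) = _
      unfold cu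
      split_ifs with h
      · rw [aeval_X, hs0]
        simp only [ex_a h0 hia.symm, ex_b h0 hib.symm, ex_i hia.symm hib.symm]
      · rw [map_zero]
        by_contra hne
        obtain ⟨h1, h2, h3⟩ := c0_ne (Ne.symm hne)
        exact h (hZm hia hib h1 h2 h3)
    have hd : dd (cu Z a b i) ≠ 0 := by
      intro h
      have h1 := dd_map (aeval s0 : MvPolynomial Z ℚ →ₐ[ℚ] ℚ).toRingHom (cu Z a b i)
      rw [hev, h, map_zero] at h1
      have h2 : dd c0 ≠ 0 := by
        unfold dd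
        norm_num [c0]
      exact h2 h1.symm
    have hp : phi (cu Z a b i) ≠ 0 := by
      intro h
      have h1 := phi_map (aeval s0 : MvPolynomial Z ℚ →ₐ[ℚ] ℚ).toRingHom (cu Z a b i)
      rw [hev, h, map_zero] at h1
      exact phi0 h1.symm
    rw [hF]
    exact mul_ne_zero (mul_ne_zero (mul_ne_zero (mul_ne_zero (mul_ne_zero
      (hX (by norm_num) (by norm_num) (by norm_num)) (hX (by norm_num) (by norm_num) (by norm_num)))
      (hX (by norm_num) (by norm_num) (by norm_num)))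
      (hX (by norm_num) (by norm_num) (by norm_num))) hd) hp
  · intro L _ _ f hf hf0 hne i hia hib
    rw [map_prod] at hne
    have h1 := (Finset.prod_ne_zero_iff.mp hne) i (by
      rw [Finset.mem_filter]
      exact ⟨Finset.mem_univ _, hia, hib⟩)
    have hcu : (fun p q s => (aeval (fun m : Z => coeff (m : Fin N →₀ ℕ) f) :
        MvPolynomial Z ℚ →ₐ[ℚ] L).toRingHom (cu Z a b i p q s)) =
        fun p q s => coeff (ex a b i p q s) f := by
      funext p q s
      change aeval (fun m : Z => coeff (m : Fin N →₀ ℕ) f) (cu Z a b i p q s) = _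
      unfold cu
      split_ifs with h
      · rw [aeval_X]
      · rw [map_zero]
        by_cases h2 : ex a b i p q s = 0
        · rw [h2, hf0]
        · have h3 : ex a b i p q s ∉ f.support := by
            intro h4
            apply h
            rw [hZ, Finset.mem_erase]
            exact ⟨h2, hf h4⟩
          exact (notMem_support_iff.mp h3).symm
    have hcu' : ∀ p q s, aeval (fun m : Z => coeff (m : Fin N →₀ ℕ) f) (cu Z a b i p q s) =
        coeff (ex a b i p q s) f := fun p q s => congrFun (congrFun (congrFun hcu p) q) s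
    rw [hF] at h1
    simp only [map_mul, hcu'] at h1
    have k6 := right_ne_zero_of_mul h1
    have k5 := right_ne_zero_of_mul (left_ne_zero_of_mul h1)
    have k4 := right_ne_zero_of_mul (left_ne_zero_of_mul (left_ne_zero_of_mul h1))
    have k3 := right_ne_zero_of_mul (left_ne_zero_of_mul (left_ne_zero_of_mul
      (left_ne_zero_of_mul h1)))
    have k2 := right_ne_zero_of_mul (left_ne_zero_of_mul (left_ne_zero_of_mul
      (left_ne_zero_of_mul (left_ne_zero_of_mul h1))))
    have k1 := left_ne_zero_of_mul (left_ne_zero_of_mul (left_ne_zero_of_mul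
      (left_ne_zero_of_mul (left_ne_zero_of_mul h1))))
    have e5 := dd_map (aeval (fun m : Z => coeff (m : Fin N →₀ ℕ) f) :
        MvPolynomial Z ℚ →ₐ[ℚ] L).toRingHom (cu Z a b i)
    have e6 := phi_map (aeval (fun m : Z => coeff (m : Fin N →₀ ℕ) f) :
        MvPolynomial Z ℚ →ₐ[ℚ] L).toRingHom (cu Z a b i)
    rw [hcu] at e5 e6
    refine ⟨h0, hia.symm, hib.symm, ?_, hf0, k1, k2, k3, k4, ?_, ?_⟩
    · intro m hm
      have h2 := mem_expo.mp (hf hm)
      constructor
      · have h3 := h2 (β a)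
        have h4 : m a + m b = ∑ l ∈ ({a, b} : Finset (Fin N)), m l := by
          rw [Finset.sum_pair h0]
        rw [h4]
        refine le_trans (Finset.sum_le_sum_of_subset ?_) h3
        intro l hl
        rw [Finset.mem_insert, Finset.mem_singleton] at hl
        rw [Finset.mem_filter]
        refine ⟨Finset.mem_univ _, ?_⟩
        rcases hl with rfl | rfl
        · rfl
        · exact hab.symm
      · have h3 := h2 (β i)
        exact le_trans (Finset.single_le_sum (f := fun l => m l)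
          (s := Finset.univ.filter fun l => β l = β i) (fun l _ => Nat.zero_le _)
          (by simp)) h3
    · rw [← e5]
      exact k5
    · rw [← e6]
      exact k6

end

end Pool.Agent.R867.C
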